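import Mathlib
import Pool.Agent.Lib.UP25.LatQ
import Pool.Agent.Lib.UP25.Hull

/-!
# Coherence of group rings of groups acting on trees (Waldhausen): actions, hulls, lattices
-/

set_option autoImplicit false
set_option linter.unusedSectionVars false
set_option linter.unusedVariables false

open MonoidAlgebra Pool.Agent.UP Pool.Agent.UPV Pool.Agent.UP25

namespace Pool.Agent.T4S

universe u v w w'

/-- `H` acts by automorphisms on a tree, with an invariant orientation of the edges and finitely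
many orbits of vertices -/
structure WAct (H : Type v) [Group H] (V : Type v) [MulAction H V] where
  Γ : SimpleGraph V
  tree : Γ.IsTree
  adj : ∀ (h : H) (x y : V), Γ.Adj x y → Γ.Adj (h • x) (h • y)
  or : Orient Γ
  orP : ∀ (h : H) (x y : V), or.P x y → or.P (h • x) (h • y)
  fin : Finite (MulAction.orbitRel.Quotient H V)

namespace WAct

variable {H : Type v} [Group H] {V : Type v} [MulAction H V] (T : WAct H V)

/-- the oriented edges -/
abbrev E : Type v := T.or.E

instance : MulAction H T.E where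
  smul h e := ⟨(h • e.1.1, h • e.1.2), T.adj h _ _ e.2.1, T.orP h _ _ e.2.2⟩
  one_smul e := Subtype.ext (Prod.ext (one_smul H _) (one_smul H _))
  mul_smul g h e := Subtype.ext (Prod.ext (mul_smul g h _) (mul_smul g h _))

theorem smul_fst (h : H) (e : T.E) : (h • e : T.E).1.1 = h • e.1.1 := rfl

theorem smul_snd (h : H) (e : T.E) : (h • e : T.E).1.2 = h • e.1.2 := rfl

/-- the stabiliser of an edge fixes both ends -/
theorem mem_stabE (h : H) (e : T.E) :
    h ∈ MulAction.stabilizer H e ↔ h • e.1.1 = e.1.1 ∧ h • e.1.2 = e.1.2 := by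
  rw [MulAction.mem_stabilizer_iff]
  constructor
  · intro hh
    exact ⟨congrArg (fun f : T.E => f.1.1) hh, congrArg (fun f : T.E => f.1.2) hh⟩
  · rintro ⟨h1, h2⟩
    exact Subtype.ext (Prod.ext h1 h2)

theorem dist_smul (h : H) (x y : V) : T.Γ.dist (h • x) (h • y) = T.Γ.dist x y :=
  s3_dist T.tree T.adj h x y

end WAct

/-! ## Hulls -/

/-- convex finite sets -/
def Cvx {V : Type v} (Γ : SimpleGraph V) (Y : Finset V) : Prop :=
  ∀ a b c, a ∈ Y → c ∈ Y → s3_btw Γ a b c → b ∈ Y

section hull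
variable {V : Type v} {Γ : SimpleGraph V} (hΓ : Γ.IsTree)

include hΓ

theorem seg_finite (r : V) (n : ℕ) : ∀ f : V, Γ.dist r f = n → {x | s3_btw Γ r x f}.Finite := by
  induction n with
  | zero =>
    intro f hf
    refine (Set.finite_singleton r).subset ?_
    intro x hx
    have hx' : Γ.dist r x + Γ.dist x f = Γ.dist r f := hx
    have h1 : Γ.dist r x = 0 := by omega
    exact (hΓ.connected.dist_eq_zero_iff.1 h1).symm
  | succ n ih =>
    intro f hf
    have hne : f ≠ r := by
      rintro rfl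
      rw [SimpleGraph.dist_self] at hf
      omega
    obtain ⟨y, hfy, hy⟩ := exists_parent hΓ hne
    refine ((ih y (by omega)).insert f).subset ?_
    intro x hx
    have hx' : Γ.dist r x + Γ.dist x f = Γ.dist r f := hx
    by_cases hxf : x = f
    · exact Or.inl hxf
    · right
      change Γ.dist r x + Γ.dist x y = Γ.dist r y
      rcases adj_cases hΓ hfy x with h1 | h1
      · omega
      · exfalso
        have h2 := tree_through hΓ hfy hy (Γ.dist f x) x rfl h1
        have h3 : Γ.dist f x = Γ.dist x f := SimpleGraph.dist_comm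
        have h4 : Γ.dist x f = 0 := by omega
        exact hxf (hΓ.connected.dist_eq_zero_iff.1 h4)

theorem btw_trans {r b a f : V} (h1 : s3_btw Γ r b a) (h2 : s3_btw Γ r a f) :
    s3_btw Γ r b f := by
  have h1' : Γ.dist r b + Γ.dist b a = Γ.dist r a := h1
  have h2' : Γ.dist r a + Γ.dist a f = Γ.dist r f := h2
  change Γ.dist r b + Γ.dist b f = Γ.dist r f
  have h3 : Γ.dist b f ≤ Γ.dist b a + Γ.dist a f := hΓ.connected.dist_triangle
  have h4 : Γ.dist r f ≤ Γ.dist r b + Γ.dist b f := hΓ.connected.dist_triangle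
  omega

/-- every finite set lies in a finite convex set -/
theorem exists_cvx (r : V) (F : Finset V) : ∃ Y : Finset V, F ⊆ Y ∧ Cvx Γ Y := by
  classical
  obtain ⟨Y, hY⟩ : ∃ Y : Finset V, ∀ b, b ∈ Y ↔ ∃ f ∈ F, s3_btw Γ r b f := by
    refine ⟨F.biUnion fun f => (seg_finite hΓ r _ f rfl).toFinset, fun b => ?_⟩
    rw [Finset.mem_biUnion]
    constructor
    · rintro ⟨f, hf, hb⟩
      exact ⟨f, hf, (Set.Finite.mem_toFinset (seg_finite hΓ r _ f rfl)).1 hb⟩
    · rintro ⟨f, hf, hb⟩
      exact ⟨f, hf, (Set.Finite.mem_toFinset (seg_finite hΓ r _ f rfl)).2 hb⟩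
  refine ⟨Y, fun f hf => (hY f).2 ⟨f, hf, ?_⟩, ?_⟩
  · change Γ.dist r f + Γ.dist f f = Γ.dist r f
    rw [SimpleGraph.dist_self, add_zero]
  · intro a b c ha hc hb
    obtain ⟨f, hf, hf'⟩ := (hY a).1 ha
    obtain ⟨g, hg, hg'⟩ := (hY c).1 hc
    rcases s3_btw_split hΓ hb r with h | h
    · exact (hY b).2 ⟨f, hf, btw_trans hΓ (s3_btw_symm h) hf'⟩
    · exact (hY b).2 ⟨g, hg, btw_trans hΓ h hg'⟩

end hull

/-! ## Lattices -/

section
variable {H : Type v} [Group H] {V : Type v} [MulAction H V] (T : WAct H V)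
  {A : Type u} [CommRing A] (ι : Type)

variable (A H) in
/-- the vectors with support in `{h : x ∈ h Y}` -/
def latY (Y : Finset V) (x : V) : AddSubgroup (ι → A[H]) where
  carrier := {y | ∀ a h, (y a).coeff h ≠ 0 → h⁻¹ • x ∈ Y}
  add_mem' := by
    intro y z hy hz a h hh
    rw [Pi.add_apply, coeff_add, Finsupp.add_apply] at hh
    by_cases h1 : (y a).coeff h = 0
    · rw [h1, zero_add] at hh
      exact hz a h hh
    · exact hy a h h1
  zero_mem' := by
    intro a h hh
    exact absurd (by rw [Pi.zero_apply, coeff_zero, Finsupp.zero_apply]) hh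
  neg_mem' := by
    intro y hy a h hh
    refine hy a h fun h0 => hh ?_
    rw [Pi.neg_apply, coeff_neg, Finsupp.neg_apply, h0, neg_zero]

theorem mem_latY {Y : Finset V} {x : V} {y : ι → A[H]} :
    y ∈ latY H A ι Y x ↔ ∀ a h, (y a).coeff h ≠ 0 → h⁻¹ • x ∈ Y := Iff.rfl

variable {K : Type w} [AddCommGroup K] [Module A[H] K]

/-- the family of the lattices in a submodule of a free module -/
noncomputable def latYF (j : K →ₗ[A[H]] (ι → A[H])) (Y : Finset V) : EqFam A H V K where
  U x := (latY H A ι Y x).comap j.toAddMonoidHom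
  mem h b x k hk := by
    change j ((single h b : A[H]) • k) ∈ latY H A ι Y (h • x)
    replace hk : j k ∈ latY H A ι Y x := hk
    rw [map_smul]
    intro a g hg
    rw [Pi.smul_apply, smul_eq_mul, coeff_single_mul_apply] at hg
    have h1 := hk a (h⁻¹ * g) (fun h0 => hg (by rw [h0, mul_zero]))
    rwa [mul_inv_rev, inv_inv, mul_smul] at h1

theorem mem_latYF (j : K →ₗ[A[H]] (ι → A[H])) (Y : Finset V) (x : V) (k : K) :
    k ∈ (latYF ι j Y).U x ↔ j k ∈ latY H A ι Y x := Iff.rfl

/-- exactness for the lattices -/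
theorem latYF_exact (j : K →ₗ[A[H]] (ι → A[H])) (Y : Finset V) (hY : Cvx T.Γ Y) (f : V →₀ K)
    (hf : ∀ x, f x ∈ (latYF ι j Y).U x) (h0 : sumV V K f = 0) :
    ∃ g : T.E →₀ K, (∀ e, g e ∈ (latYF ι j Y).U e.1.1 ∧ g e ∈ (latYF ι j Y).U e.1.2) ∧
      bdE T.or K g = f := by
  refine tree_exact T.or T.tree (latYF ι j Y).U ?_ f hf h0
  rintro x y hxy k hk ⟨S, φ, hS, rfl⟩
  rw [mem_latYF] at hk ⊢
  intro a h hh
  have h1 := hk a h hh
  have h2 : ∃ z ∈ S, (j (φ z) a).coeff h ≠ 0 := by
    by_contra hcon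
    push Not at hcon
    apply hh
    rw [map_sum, Finset.sum_apply]
    have h3 : ∀ S' ⊆ S, (∑ z ∈ S', j (φ z) a).coeff h = 0 := by
      classical
      intro S'
      induction S' using Finset.induction_on with
      | empty =>
        intro _
        rw [Finset.sum_empty, coeff_zero, Finsupp.zero_apply]
      | insert z S' hz ih =>
        intro hS'
        rw [Finset.sum_insert hz, coeff_add, Finsupp.add_apply,
          ih ((Finset.subset_insert z S').trans hS'),
          hcon z (hS' (Finset.mem_insert_self z S')), add_zero]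
    exact h3 S subset_rfl
  obtain ⟨z, hz, hzh⟩ := h2
  refine hY (h⁻¹ • x) _ (h⁻¹ • z) h1 ((hS z hz).1 a h hzh) ?_
  change T.Γ.dist (h⁻¹ • x) (h⁻¹ • y) + T.Γ.dist (h⁻¹ • y) (h⁻¹ • z) =
    T.Γ.dist (h⁻¹ • x) (h⁻¹ • z)
  rw [T.dist_smul, T.dist_smul, T.dist_smul]
  have h3 : T.Γ.dist z x = T.Γ.dist z y + 1 := (hS z hz).2
  have h4 : T.Γ.dist x y = 1 := SimpleGraph.dist_eq_one_iff_adj.2 hxy
  rw [SimpleGraph.dist_comm (u := y), SimpleGraph.dist_comm (u := x) (v := z)]
  omega

/-- the sums of the lattices -/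
theorem latYF_sum [Module.Finite A[H] K] [Finite ι] (x0 : V) (j : K →ₗ[A[H]] (ι → A[H])) :
    ∃ F : Finset V, ∀ Y, F ⊆ Y → ∀ k : K, ∃ f : V →₀ K, (∀ x, f x ∈ (latYF ι j Y).U x) ∧
      sumV V K f = k := by
  classical
  have := Fintype.ofFinite ι
  obtain ⟨s, hs⟩ := (Module.Finite.fg_top : (⊤ : Submodule A[H] K).FG)
  refine ⟨s.biUnion fun k => (Finset.univ : Finset ι).biUnion fun a =>
    (j k a).coeff.support.image fun h => h⁻¹ • x0, fun Y hY k => ?_⟩
  have h1 : ((sumL A H V K).comp (latYF ι j Y).tot.subtype).range = ⊤ := by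
    rw [eq_top_iff, ← hs, Submodule.span_le]
    intro k hk
    have h2 : k ∈ (latYF ι j Y).U x0 := by
      intro a h hh
      refine hY (Finset.mem_biUnion.2 ⟨k, hk, Finset.mem_biUnion.2 ⟨a, Finset.mem_univ _, ?_⟩⟩)
      exact Finset.mem_image.2 ⟨h, Finsupp.mem_support_iff.2 hh, rfl⟩
    refine ⟨⟨Tw.mk A H x0 k, (latYF ι j Y).mk_mem h2⟩, ?_⟩
    exact sumV_single x0 k
  have h2 : k ∈ ((sumL A H V K).comp (latYF ι j Y).tot.subtype).range := by
    rw [h1]; exact Submodule.mem_top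
  obtain ⟨f, hf⟩ := h2
  exact ⟨f.1, f.2, hf⟩

/-! ## Coordinates -/

variable (A) in
/-- coordinates with respect to finitely many cosets `L c` -/
noncomputable def embL (L : Subgroup H) (C : Finset H) :
    Rs L (ι → A[H]) →ₗ[A[L]] ((C × ι) → A[L]) where
  toFun y := fun q => psiN L (((toRs L (ι → A[H])).symm y) q.2 * single ((q.1 : H)⁻¹) 1)
  map_add' y z := by
    funext q
    rw [map_add, Pi.add_apply, add_mul, map_add, Pi.add_apply]
  map_smul' r y := by
    funext q
    rw [rs_smul, Pi.smul_apply, smul_eq_mul, mul_assoc, psiN_left]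
    rfl

theorem embL_inj (L : Subgroup H) (C : Finset H) (y : ι → A[H])
    (hy : ∀ a h, (y a).coeff h ≠ 0 → ∃ c ∈ C, h * c⁻¹ ∈ L)
    (h0 : embL A ι L C (toRs L _ y) = 0) : y = 0 := by
  funext a
  refine MonoidAlgebra.ext (Finsupp.ext fun h => ?_)
  rw [Pi.zero_apply, coeff_zero, Finsupp.zero_apply]
  by_contra hne
  obtain ⟨c, hc, hcL⟩ := hy a h hne
  apply hne
  have h1 := congrFun h0 (⟨c, hc⟩, a)
  have h2 : psiN L (y a * single c⁻¹ 1) = 0 := h1
  have h3 := congrArg (fun s : A[L] => s.coeff ⟨h * c⁻¹, hcL⟩) h2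
  simp only [psiN_coeff, coeff_zero, Finsupp.zero_apply] at h3
  rw [coeff_mul_single_apply, mul_one, inv_inv, inv_mul_cancel_right] at h3
  exact h3

/-- finitely many cosets of the stabiliser move a point into a finite set -/
theorem exists_cosets {X : Type v} [MulAction H X] (x : X) (Z : Set X) (hZ : Z.Finite) :
    ∃ C : Finset H, ∀ h : H, h⁻¹ • x ∈ Z → ∃ c ∈ C, h * c⁻¹ ∈ MulAction.stabilizer H x := by
  classical
  have h1 : ∀ z : X, ∃ k : H, (∃ h : H, h⁻¹ • x = z) → k⁻¹ • x = z := by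
    intro z
    by_cases hz : ∃ h : H, h⁻¹ • x = z
    · exact ⟨hz.choose, fun _ => hz.choose_spec⟩
    · exact ⟨1, fun h => absurd h hz⟩
  choose k hk using h1
  refine ⟨hZ.toFinset.image k, fun h hh => ⟨k (h⁻¹ • x), ?_, ?_⟩⟩
  · exact Finset.mem_image.2 ⟨_, hZ.mem_toFinset.2 hh, rfl⟩
  · rw [MulAction.mem_stabilizer_iff, mul_smul, hk _ ⟨h, rfl⟩, smul_inv_smul]

end

end Pool.Agent.T4S
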