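import Mathlib
import Pool.Agent.Lib.T4S.WaldA

/-!
# Coherence of group rings of groups acting on trees (Waldhausen): finite generation
-/

set_option autoImplicit false
set_option linter.unusedSectionVars false
set_option linter.unusedVariables false

open MonoidAlgebra Pool.Agent.UP Pool.Agent.UPV Pool.Agent.UP25

namespace Pool.Agent.T4S

universe u v w w'

section
variable {A : Type u} {H : Type v} [CommRing A] [Group H] {X : Type v} [MulAction H X]
  {K : Type w} [AddCommGroup K] [Module A[H] K]

/-- the values of a multiple -/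
theorem val_single_smul (b : H) (a : A) (f : Tw A H X K) (y : X) :
    val y ((single b a : A[H]) • f) = (single b a : A[H]) • val (b⁻¹ • y) f := by
  obtain ⟨S, hS⟩ := tw_sum f
  have key : ∀ (x : X) (m : K), val y ((single b a : A[H]) • Tw.mk A H x m) =
      (single b a : A[H]) • val (b⁻¹ • y) (Tw.mk A H x m) := by
    intro x m
    rw [Tw.single_smul]
    by_cases h : b • x = y
    · subst h
      rw [val_mk_same, inv_smul_smul, val_mk_same]
    · rw [val_mk_ne h, val_mk_ne, smul_zero]
      rintro rfl
      exact h (smul_inv_smul b y)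
  rw [hS, Finset.smul_sum, map_sum, map_sum, Finset.smul_sum]
  exact Finset.sum_congr rfl fun x _ => key x _

/-- if the total module is finitely generated then the members of the family are finitely
generated over the group rings of the stabilisers -/
theorem loc_fg_of_tot_fg (F : EqFam A H X K) (hF : F.tot.FG) (x : X) :
    (F.loc (MulAction.stabilizer H x) x (stab_fix x)).FG := by
  classical
  obtain ⟨S, hS⟩ := hF
  obtain ⟨L, hL⟩ : ∃ L, L = MulAction.stabilizer H x := ⟨_, rfl⟩
  have hLx : ∀ h : H, h ∈ L ↔ h • x = x := by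
    intro h
    rw [hL]
    exact MulAction.mem_stabilizer_iff
  -- representatives
  have h1 : ∀ z : X, ∃ k : H, (∃ h : H, h • x = z) → k • x = z := by
    intro z
    by_cases hz : ∃ h : H, h • x = z
    · exact ⟨hz.choose, fun _ => hz.choose_spec⟩
    · exact ⟨1, fun h => absurd h hz⟩
  choose k hk using h1
  -- the generators
  let gens : Tw A H X K → Finset (Rs L K) := fun g =>
    ((g : X →₀ K).support.filter fun z => ∃ h : H, h • x = z).image fun z =>
      toRs L K ((single (k z)⁻¹ 1 : A[H]) • val z g)
  let G : Finset (Rs L K) := S.biUnion gens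
  let M : Submodule A[L] (Rs L K) := Submodule.span A[L] (G : Set (Rs L K))
  have hSF : ∀ g ∈ S, g ∈ F.tot := by
    intro g hg
    rw [← hS]
    exact Submodule.subset_span hg
  subst hL
  suffices h2 : F.loc (MulAction.stabilizer H x) x (stab_fix x) = M by
    rw [h2]
    exact ⟨G, rfl⟩
  apply le_antisymm
  · have key : ∀ f ∈ Submodule.span A[H] (S : Set (Tw A H X K)), ∀ h : H,
        toRs (MulAction.stabilizer H x) K ((single h 1 : A[H]) • val (h⁻¹ • x) f) ∈ M := by
      intro f hf
      induction hf using Submodule.span_induction with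
      | mem g hg =>
        intro h
        by_cases hz : val (h⁻¹ • x) g = 0
        · rw [hz, smul_zero]
          exact M.zero_mem
        · have hkz := hk (h⁻¹ • x) ⟨h⁻¹, rfl⟩
          have hmem : h * k (h⁻¹ • x) ∈ MulAction.stabilizer H x := by
            rw [hLx, mul_smul, hkz, smul_inv_smul]
          have h3 : toRs (MulAction.stabilizer H x) K ((single h 1 : A[H]) • val (h⁻¹ • x) g) =
              (single (⟨h * k (h⁻¹ • x), hmem⟩ : MulAction.stabilizer H x) 1 :
                A[MulAction.stabilizer H x]) •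
              toRs (MulAction.stabilizer H x) K
                ((single (k (h⁻¹ • x))⁻¹ 1 : A[H]) • val (h⁻¹ • x) g) := by
            rw [toRs_smul, iotaN_single, ← mul_smul, single_mul_single, one_mul]
            simp only [mul_inv_cancel_right]
          rw [h3]
          refine M.smul_mem _ (Submodule.subset_span ?_)
          refine Finset.mem_coe.2 (Finset.mem_biUnion.2 ⟨g, hg, Finset.mem_image.2
            ⟨h⁻¹ • x, Finset.mem_filter.2 ⟨Finsupp.mem_support_iff.2 hz, ⟨h⁻¹, rfl⟩⟩, rfl⟩⟩)
      | zero =>
        intro h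
        rw [map_zero, smul_zero]
        exact M.zero_mem
      | add f g _ _ hf hg =>
        intro h
        rw [map_add, smul_add, map_add]
        exact M.add_mem (hf h) (hg h)
      | smul s f _ hf =>
        intro h
        induction s using MonoidAlgebra.induction_linear with
        | zero =>
          rw [zero_smul, map_zero, smul_zero]
          exact M.zero_mem
        | add r s hr hs =>
          rw [add_smul, map_add, smul_add, map_add]
          exact M.add_mem hr hs
        | single b a =>
          have h3 : toRs (MulAction.stabilizer H x) K ((single h 1 : A[H]) •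
              val (h⁻¹ • x) ((single b a : A[H]) • f)) =
              (single (1 : MulAction.stabilizer H x) a : A[MulAction.stabilizer H x]) •
              toRs (MulAction.stabilizer H x) K ((single (h * b) 1 : A[H]) •
                val ((h * b)⁻¹ • x) f) := by
            rw [toRs_smul, iotaN_single, val_single_smul, mul_inv_rev, mul_smul b⁻¹ h⁻¹ x,
              ← mul_smul (single h 1 : A[H]), ← mul_smul (single _ a : A[H]),
              single_mul_single, single_mul_single]
            simp only [one_mul, mul_one, OneMemClass.coe_one]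
          rw [h3]
          exact M.smul_mem _ (hf (h * b))
    intro m hm
    obtain ⟨m, rfl⟩ := (toRs (MulAction.stabilizer H x) K).surjective m
    have h3 : Tw.mk A H x m ∈ Submodule.span A[H] (S : Set (Tw A H X K)) := by
      rw [hS]
      exact F.mk_mem hm
    have h4 := key _ h3 1
    rw [inv_one, one_smul, val_mk_same, ← one_def, one_smul] at h4
    exact h4
  · refine Submodule.span_le.2 ?_
    intro m hm
    obtain ⟨g, hg, hm⟩ := Finset.mem_biUnion.1 (Finset.mem_coe.1 hm)
    obtain ⟨z, hz, rfl⟩ := Finset.mem_image.1 hm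
    obtain ⟨hz1, hz2⟩ := Finset.mem_filter.1 hz
    have h3 := hk z hz2
    change (single (k z)⁻¹ 1 : A[H]) • val z g ∈ F.U x
    have h4 := F.mem (k z)⁻¹ 1 z _ (hSF g hg z)
    have h5 : (k z)⁻¹ • z = x := inv_smul_eq_iff.2 h3.symm
    rwa [h5] at h4

end

/-! ## Submodules with support in finitely many cosets -/

section
variable {A : Type u} {H : Type v} [CommRing A] [Group H] {K : Type w} [AddCommGroup K]
  [Module A[H] K] {ι : Type} [Finite ι]

theorem fin_of_cosets (L : Subgroup H) (C : Finset H) (j : K →ₗ[A[H]] (ι → A[H]))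
    (hj : Function.Injective j) (N : Submodule A[L] (Rs L K))
    (hN : ∀ k : K, toRs L K k ∈ N → ∀ a h, (j k a).coeff h ≠ 0 → ∃ c ∈ C, h * c⁻¹ ∈ L) :
    ∃ (m : ℕ) (φ : N →ₗ[A[L]] (Fin m → A[L])), Function.Injective φ := by
  classical
  have := Fintype.ofFinite ι
  let φ : N →ₗ[A[L]] ((C × ι) → A[L]) := (embL A ι L C).comp ((rsMap L j).comp N.subtype)
  have hφ : Function.Injective φ := by
    rw [injective_iff_map_eq_zero]
    rintro ⟨k, hk⟩ h0
    obtain ⟨k, rfl⟩ := (toRs L K).surjective k
    have h1 := embL_inj (A := A) ι L C (j k) (hN k hk) h0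
    have h2 : k = 0 := hj (by rw [h1, map_zero])
    refine Subtype.ext ?_
    change toRs L K k = 0
    rw [h2, map_zero]
  have hψ : Function.Injective (LinearMap.funLeft A[L] A[L]
      (Fintype.equivFin (C × ι)).symm) :=
    LinearMap.funLeft_injective_of_surjective _ _ _ (Fintype.equivFin (C × ι)).symm.surjective
  exact ⟨Fintype.card (C × ι), (LinearMap.funLeft A[L] A[L]
    (Fintype.equivFin (C × ι)).symm).comp φ, fun a b hab => hφ (hψ hab)⟩

theorem fg_of_inj {R : Type u} [Ring R] [IsNoetherianRing R] {M : Type w} [AddCommGroup M]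
    [Module R M] (N : Submodule R M) {m : ℕ} (φ : N →ₗ[R] (Fin m → R))
    (hφ : Function.Injective φ) : N.FG := by
  have h1 : IsNoetherian R N := isNoetherian_of_injective φ hφ
  exact Module.Finite.iff_fg.1 (Module.IsNoetherian.finite R N)

theorem fp_of_inj {R : Type u} [Ring R] (hc : CohT R) {M : Type w} [AddCommGroup M]
    [Module R M] (N : Submodule R M) (hN : N.FG) {m : ℕ} (φ : N →ₗ[R] (Fin m → R))
    (hφ : Function.Injective φ) : Module.FinitePresentation R N := by
  have h1 : Module.Finite R N := Module.Finite.iff_fg.2 hN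
  have h2 : (LinearMap.range φ).FG := by
    rw [LinearMap.range_eq_map]
    exact Module.Finite.fg_top.map φ
  have h3 := fp_submodule hc (LinearMap.range φ) h2
  exact Module.FinitePresentation.of_equiv (LinearEquiv.ofInjective φ hφ).symm

end

/-! ## The exact sequence -/

section
variable {A : Type u} {H : Type v} [CommRing A] [Group H] {V : Type v} [MulAction H V]
  (T : WAct H V) {K : Type w} [AddCommGroup K] [Module A[H] K]

/-- the family of the intersections on the edges -/
noncomputable def edgeF (F : EqFam A H V K) : EqFam A H T.E K where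
  U e := F.U e.1.1 ⊓ F.U e.1.2
  mem h a _ m hm := ⟨F.mem h a _ m hm.1, F.mem h a _ m hm.2⟩

variable (A K) in
/-- the boundary -/
noncomputable def bdW : Tw A H T.E K →ₗ[A[H]] Tw A H V K :=
  Tw.lift A H (fun e => (Finsupp.singleAddHom (M := K) e.1.2 - Finsupp.singleAddHom (M := K) e.1.1 :
    K →+ (V →₀ K))) (fun g a e m => by
      change Tw.mk A H (g • e.1.2) ((single g a : A[H]) • m) -
        Tw.mk A H (g • e.1.1) ((single g a : A[H]) • m) =
        (single g a : A[H]) • (Tw.mk A H e.1.2 m - Tw.mk A H e.1.1 m)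
      rw [smul_sub, Tw.single_smul, Tw.single_smul])

theorem bdW_eq (f : Tw A H T.E K) : bdW A T K f = bdE T.or K f := rfl

variable {T}

theorem val_bdW_mem (F : EqFam A H V K) (g : T.E →₀ K)
    (hg : ∀ e, g e ∈ F.U e.1.1 ∧ g e ∈ F.U e.1.2) (x : V) : bdE T.or K g x ∈ F.U x := by
  rw [bdE_apply]
  refine (F.U x).sum_mem fun e _ => ?_
  refine (F.U x).sub_mem ?_ ?_
  · by_cases h : e.1.2 = x
    · rw [← h, Finsupp.single_eq_same]
      exact (hg e).2
    · rw [Finsupp.single_eq_of_ne (Ne.symm h)]
      exact (F.U x).zero_mem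
  · by_cases h : e.1.1 = x
    · rw [← h, Finsupp.single_eq_same]
      exact (hg e).1
    · rw [Finsupp.single_eq_of_ne (Ne.symm h)]
      exact (F.U x).zero_mem

/-- the exact sequence -/
theorem wald_ses (F : EqFam A H V K)
    (hs : ∀ k : K, ∃ f : V →₀ K, (∀ x, f x ∈ F.U x) ∧ sumV V K f = k)
    (he : ∀ f : V →₀ K, (∀ x, f x ∈ F.U x) → sumV V K f = 0 →
      ∃ g : T.E →₀ K, (∀ e, g e ∈ F.U e.1.1 ∧ g e ∈ F.U e.1.2) ∧ bdE T.or K g = f) :
    ∃ (φ : (edgeF T F).tot →ₗ[A[H]] F.tot) (ψ : F.tot →ₗ[A[H]] K), Function.Injective φ ∧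
      Function.Surjective ψ ∧ LinearMap.range φ = LinearMap.ker ψ := by
  let φ : (edgeF T F).tot →ₗ[A[H]] F.tot :=
    ((bdW A T K).comp (edgeF T F).tot.subtype).codRestrict F.tot (fun g => by
      intro x
      exact val_bdW_mem F (g.1 : T.E →₀ K) g.2 x)
  let ψ : F.tot →ₗ[A[H]] K := (sumL A H V K).comp F.tot.subtype
  refine ⟨φ, ψ, ?_, ?_, ?_⟩
  · rw [← LinearMap.ker_eq_bot, eq_bot_iff]
    intro g hg
    have h1 : bdE T.or K (g.1 : T.E →₀ K) = 0 := congrArg Subtype.val hg
    exact Subtype.ext (tree_inj T.or T.tree _ h1)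
  · intro k
    obtain ⟨f, h1, h2⟩ := hs k
    exact ⟨⟨f, h1⟩, h2⟩
  · apply le_antisymm
    · rintro _ ⟨g, rfl⟩
      exact sumV_bdE T.or (g.1 : T.E →₀ K)
    · intro f hf
      obtain ⟨g, h1, h2⟩ := he (f.1 : V →₀ K) f.2 hf
      exact ⟨⟨g, h1⟩, Subtype.ext h2⟩

variable (T)

/-- finitely generated submodules of free modules are finitely presented -/
theorem wald_fp [Module.Finite A[H] K] {ι : Type} [Finite ι]
    (hfin : Finite (MulAction.orbitRel.Quotient H T.E))
    (hn : ∀ e : T.E, IsNoetherianRing A[MulAction.stabilizer H e])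
    (hc : ∀ x : V, CohT A[MulAction.stabilizer H x])
    (j : K →ₗ[A[H]] (ι → A[H])) (hj : Function.Injective j) :
    Module.FinitePresentation A[H] K := by
  classical
  obtain ⟨x0⟩ := T.tree.connected.nonempty
  obtain ⟨F0, hF0⟩ := latYF_sum ι x0 j
  obtain ⟨Y, hY1, hY2⟩ := exists_cvx T.tree x0 F0
  obtain ⟨F, hF⟩ : ∃ F, F = latYF ι j Y := ⟨_, rfl⟩
  have hs := hF0 Y hY1
  have he := latYF_exact T ι j Y hY2
  rw [← hF] at hs he
  obtain ⟨φ, ψ, h1, h2, h3⟩ := wald_ses (T := T) F hs he
  -- the edges
  obtain ⟨m, e, he1, he2⟩ := exists_orbit_reps H T.E hfin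
  have hfgE : ∀ i, ((edgeF T F).loc (MulAction.stabilizer H (e i)) (e i) (stab_fix _)).FG := by
    intro i
    have hZ : {e' : T.E | e'.1.1 ∈ Y ∧ e'.1.2 ∈ Y}.Finite := by
      refine Set.Finite.of_injOn (f := fun e' : T.E => e'.1) (t := (Y : Set V) ×ˢ (Y : Set V))
        (fun e' he' => Set.mk_mem_prod he'.1 he'.2) Subtype.val_injective.injOn ?_
      exact Y.finite_toSet.prod Y.finite_toSet
    obtain ⟨C, hC⟩ := exists_cosets (H := H) (e i) _ hZ
    have := hn (e i)
    obtain ⟨m, φ, hφ⟩ := fin_of_cosets (MulAction.stabilizer H (e i)) C j hj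
      ((edgeF T F).loc (MulAction.stabilizer H (e i)) (e i) (stab_fix _)) (by
        intro k hk a h hh
        refine hC h ?_
        have hk' : k ∈ F.U (e i).1.1 ∧ k ∈ F.U (e i).1.2 := hk
        rw [hF] at hk'
        exact ⟨hk'.1 a h hh, hk'.2 a h hh⟩)
    exact fg_of_inj _ φ hφ
  obtain ⟨T1, -, ⟨r1⟩⟩ := exists_tot (edgeF T F) e he1 he2 (fun i => hn _) hfgE
  have hfp1 := fp_of_res r1
  -- the total module of the vertices is finitely generated
  have hfgker : (LinearMap.ker ψ).FG := by
    rw [← h3, LinearMap.range_eq_map]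
    exact Submodule.FG.map _ Module.Finite.fg_top
  have hfgT : F.tot.FG := by
    have h4 : (⊤ : Submodule A[H] F.tot).FG := by
      refine Submodule.fg_of_fg_map_of_fg_inf_ker ψ ?_ ?_
      · rw [← LinearMap.range_eq_map, LinearMap.range_eq_top.2 h2]
        exact Module.Finite.fg_top
      · rw [top_inf_eq]
        exact hfgker
    exact Module.Finite.iff_fg.1 ⟨h4⟩
  -- the vertices
  obtain ⟨n, x, hx1, hx2⟩ := exists_orbit_reps H V T.fin
  have hres : ∀ i, ∃ T0 : RC A[MulAction.stabilizer H (x i)],
      Nonempty (Res T0 (F.loc (MulAction.stabilizer H (x i)) (x i) (stab_fix _))) := by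
    intro i
    have hfg := loc_fg_of_tot_fg F hfgT (x i)
    obtain ⟨C, hC⟩ := exists_cosets (H := H) (x i) (Y : Set V) Y.finite_toSet
    obtain ⟨m, φ, hφ⟩ := fin_of_cosets (MulAction.stabilizer H (x i)) C j hj
      (F.loc (MulAction.stabilizer H (x i)) (x i) (stab_fix _)) (by
        intro k hk a h hh
        refine hC h ?_
        have hk' : k ∈ F.U (x i) := hk
        rw [hF] at hk'
        exact hk' a h hh)
    have hfp := fp_of_inj (hc (x i)) _ hfg φ hφ
    exact exists_res_coh (hc (x i)) _
  choose T0 hT0 using hres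
  obtain ⟨r0⟩ := res_tot F x T0 (fun i => SRes.of_res _ _ _ (hT0 i).some) hx1 hx2
  have hfp0 := fp_of_res r0
  exact Module.finitePresentation_of_surjective ψ h2 hfgker

/-- **Waldhausen**: coherence of `A[H]`, if `H` acts on a tree with finitely many orbits such that
the group rings of the stabilisers of the edges are noetherian and the group rings of the
stabilisers of the vertices are coherent -/
theorem coh_wald (hfin : Finite (MulAction.orbitRel.Quotient H T.E))
    (hn : ∀ e : T.E, IsNoetherianRing A[MulAction.stabilizer H e])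
    (hc : ∀ x : V, CohT A[MulAction.stabilizer H x]) : CohT A[H] := by
  refine cohT_of_ker fun J K _ _ D => ?_
  let R := LinearMap.range (Matrix.vecMulLinear D)
  have hR : Module.Finite A[H] R := inferInstance
  have hfp : Module.FinitePresentation A[H] R :=
    wald_fp T hfin hn hc R.subtype R.subtype_injective
  have hker : (LinearMap.ker (Matrix.vecMulLinear D).rangeRestrict).FG :=
    Module.FinitePresentation.fg_ker _ (LinearMap.surjective_rangeRestrict _)
  rwa [LinearMap.ker_rangeRestrict] at hker

end

end Pool.Agent.T4S
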