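import Mathlib
import Pool.Agent.Lib.UP.F5b
import Pool.Agent.Lib.UP.U5E
import Pool.Agent.Lib.UP.TrBr
import Pool.Agent.Lib.UP25.Blk

/-!
# Subgroups: coherence, `AR1` and finite dimension pass from `A[H]` to `A[L]`

For an injective homomorphism `f : L → H` the group ring `A[L]` is a retract of `A[H]` as a
bimodule, and `A[H]` is a free right `A[L]`-module.
-/

set_option autoImplicit false
set_option linter.unusedSectionVars false

open MonoidAlgebra Pool.Agent.UP Pool.Agent.UPV Pool.Agent.UP25

namespace Pool.Agent.T4S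

universe u v w

/-- coherence from the finite generation of the left kernels -/
theorem cohT_of_fg_ker {R : Type u} [Ring R] (h : ∀ (J K : Type) [Fintype J] [Fintype K]
    (D : Matrix J K R), (LinearMap.ker (Matrix.vecMulLinear D)).FG) : CohT R := by
  classical
  intro J K _ _ D
  let N : Submodule R (J → R) := LinearMap.ker (Matrix.vecMulLinear D)
  obtain ⟨S, hS⟩ : N.FG := h J K D
  let eq := S.equivFin
  refine ⟨S.card, fun i j => (eq.symm i : J → R) j, ?_, ?_⟩
  · funext i k
    have h1 : ((eq.symm i : J → R)) ∈ N := by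
      rw [← hS]
      exact Submodule.subset_span (eq.symm i).2
    have h2 : Matrix.vecMul (eq.symm i : J → R) D = 0 := h1
    exact congrFun h2 k
  · intro x hx
    have h1 : x () ∈ N := row_eq_iff.1 hx
    rw [← hS] at h1
    have h2 : Submodule.span R (S : Set (J → R)) =
        Submodule.span R (Set.range fun i : Fin S.card => (eq.symm i : J → R)) := by
      congr 1
      ext y
      constructor
      · intro hy
        exact ⟨eq ⟨y, hy⟩, by simp⟩
      · rintro ⟨i, rfl⟩
        exact (eq.symm i).2
    rw [h2] at h1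
    obtain ⟨c, hc⟩ := (Submodule.mem_span_range_iff_exists_fun R).1 h1
    refine ⟨fun _ i => c i, ?_⟩
    symm
    apply row_eq_iff.2
    change Matrix.vecMul c _ = x ()
    rw [← hc]
    funext j
    simp only [Matrix.vecMul, dotProduct, Finset.sum_apply, Pi.smul_apply, smul_eq_mul]

/-- a ring extension `R → S` with a retraction which is `R`-bilinear, such that every finite family
in `S` is a combination of its coordinates -/
structure Ret (R : Type u) (S : Type v) [Ring R] [Ring S] where
  ι : R →+* S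
  ψ : S →+ R
  left : ∀ r s, ψ (ι r * s) = r * ψ s
  right : ∀ s r, ψ (s * ι r) = ψ s * r
  sec : ∀ r, ψ (ι r) = r
  dec : ∀ (J : Type) [Finite J] (y : J → S), ∃ (n : ℕ) (b b' : Fin n → S),
    ∀ j, y j = ∑ i, b i * ι (ψ (b' i * y j))

namespace Ret

section
variable {R : Type u} {S : Type v} [Ring R] [Ring S] (F : Ret R S)

theorem psi_vecMul {J K : Type} [Fintype J] (D : Matrix J K R) (g : S) (y : J → S) (k : K) :
    F.ψ (g * Matrix.vecMul y (D.map F.ι) k) = Matrix.vecMul (fun j => F.ψ (g * y j)) D k := by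
  simp only [Matrix.vecMul, dotProduct, Matrix.map_apply, Finset.mul_sum, map_sum]
  exact Finset.sum_congr rfl fun j _ => by rw [← mul_assoc, F.right]

theorem row_lift {J K : Type} [Fintype J] [Finite K] (D : Matrix J K R) (y : K → S)
    (h : ∀ g : S, ∃ w, Matrix.vecMul w D = fun k => F.ψ (g * y k)) :
    ∃ w, Matrix.vecMul w (D.map F.ι) = y := by
  obtain ⟨n, b, b', hb⟩ := F.dec K y
  choose w hw using fun i => h (b' i)
  refine ⟨fun j => ∑ i, b i * F.ι (w i j), ?_⟩
  funext k
  rw [hb k]
  simp only [Matrix.vecMul, dotProduct, Matrix.map_apply, Finset.sum_mul]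
  rw [Finset.sum_comm]
  refine Finset.sum_congr rfl fun i _ => ?_
  rw [← congrFun (hw i) k]
  simp only [Matrix.vecMul, dotProduct, map_sum, map_mul, Finset.mul_sum, mul_assoc]

theorem ex_up {T : RC R} {k : ℕ} (h : T.Ex k) : (T.map F.ι).Ex k := by
  intro x hx
  refine F.row_lift (T.D (k + 1)) x fun g => h _ ?_
  funext b
  have h1 := F.psi_vecMul (T.D k) g x b
  have h2 : Matrix.vecMul x ((T.map F.ι).D k) b = 0 := congrFun hx b
  refine h1.symm.trans ((congrArg (fun t => F.ψ (g * t)) h2).trans ?_)
  rw [mul_zero, map_zero]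
  rfl

theorem iota_vecMul {J K : Type} [Fintype J] (D : Matrix J K R) (y : J → R) :
    Matrix.vecMul (fun j => F.ι (y j)) (D.map F.ι) = fun k => F.ι (Matrix.vecMul y D k) := by
  funext k
  simp only [Matrix.vecMul, dotProduct, Matrix.map_apply, map_sum, map_mul]

include F in
/-- coherence passes to `R` -/
theorem coh (h : CohT S) : CohT R := by
  classical
  refine cohT_of_fg_ker fun J K _ _ D => ?_
  obtain ⟨s, hs⟩ := F5b_fg h (D.map F.ι)
  have h1 : ∀ v : J → S, ∃ (n : ℕ) (b b' : Fin n → S),
    ∀ j, v j = ∑ i, b i * F.ι (F.ψ (b' i * v j)) := fun v => F.dec J v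
  choose n b b' hb using h1
  have hker : ∀ v ∈ s, Matrix.vecMul v (D.map F.ι) = 0 := by
    intro v hv
    have : v ∈ LinearMap.ker (Matrix.vecMulLinear (D.map F.ι)) := by
      rw [← hs]
      exact Submodule.subset_span hv
    exact this
  obtain ⟨N, hN⟩ : ∃ N : Submodule R (J → R), N = ⨆ v ∈ s, Submodule.span R
    (Set.range fun i : Fin (n v) => (fun j => F.ψ (b' v i * v j) : J → R)) := ⟨_, rfl⟩
  have hNfg : N.FG := by
    rw [hN]
    exact Submodule.fg_biSup s _ fun v _ => Submodule.fg_span (Set.finite_range _)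
  have hgen : ∀ v ∈ s, ∀ i, (fun j => F.ψ (b' v i * v j)) ∈ N := by
    intro v hv i
    rw [hN]
    exact Submodule.mem_iSup_of_mem v (Submodule.mem_iSup_of_mem hv
      (Submodule.subset_span ⟨i, rfl⟩))
  have hspan : ∀ y ∈ Submodule.span S (s : Set (J → S)), ∀ g : S,
      (fun j => F.ψ (g * y j)) ∈ N := by
    intro y hy
    induction hy using Submodule.span_induction with
    | mem v hv =>
      intro g
      have h2 : (fun j => F.ψ (g * v j)) =
          ∑ i, F.ψ (g * b v i) • (fun j => F.ψ (b' v i * v j) : J → R) := by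
        funext j
        rw [Finset.sum_apply]
        conv_lhs => rw [hb v j]
        rw [Finset.mul_sum, map_sum]
        exact Finset.sum_congr rfl fun i _ => by
          rw [← mul_assoc, F.right]
          rfl
      rw [h2]
      exact Submodule.sum_mem _ fun i _ => Submodule.smul_mem _ _ (hgen v hv i)
    | zero =>
      intro g
      have h2 : (fun j => F.ψ (g * (0 : J → S) j)) = 0 := by
        funext j
        rw [Pi.zero_apply, mul_zero, map_zero]
        rfl
      rw [h2]
      exact N.zero_mem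
    | add x y _ _ hx hy =>
      intro g
      have h2 : (fun j => F.ψ (g * (x + y) j)) =
          (fun j => F.ψ (g * x j)) + fun j => F.ψ (g * y j) := by
        funext j
        rw [Pi.add_apply, Pi.add_apply, mul_add, map_add]
      rw [h2]
      exact N.add_mem (hx g) (hy g)
    | smul a x _ hx =>
      intro g
      have h2 : (fun j => F.ψ (g * (a • x) j)) = fun j => F.ψ ((g * a) * x j) := by
        funext j
        rw [Pi.smul_apply, smul_eq_mul, mul_assoc]
      rw [h2]
      exact hx _
  have hle : LinearMap.ker (Matrix.vecMulLinear D) = N := by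
    apply le_antisymm
    · intro x hx
      have h2 : Matrix.vecMul x D = 0 := hx
      have h3 : (fun j => F.ι (x j)) ∈ LinearMap.ker (Matrix.vecMulLinear (D.map F.ι)) := by
        change Matrix.vecMul (fun j => F.ι (x j)) (D.map F.ι) = 0
        rw [F.iota_vecMul, h2]
        funext k
        exact map_zero _
      rw [← hs] at h3
      have h4 := hspan _ h3 1
      have h5 : (fun j => F.ψ (1 * F.ι (x j))) = x := by
        funext j
        rw [one_mul, F.sec]
      rwa [h5] at h4
    · rw [hN]
      refine iSup₂_le fun v hv => ?_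
      rw [Submodule.span_le]
      rintro _ ⟨i, rfl⟩
      change Matrix.vecMul (fun j => F.ψ (b' v i * v j)) D = 0
      funext k
      rw [← F.psi_vecMul, hker v hv, Pi.zero_apply, mul_zero, map_zero]
      rfl
  rw [hle]
  exact hNfg

include F in
/-- finite dimension passes to `R` -/
theorem fl {g : ℕ} (h : FL S g) : FL R g := by
  intro T hT
  obtain ⟨M, h1, h2⟩ := h (T.map F.ι) fun k => F.ex_up (hT k)
  refine ⟨fun i j => F.ψ (M i j), ?_, ?_⟩
  · ext i j
    have h3 : ∑ k, M i k * F.ι (T.D g k j) = F.ι (T.D g i j) := congrFun (congrFun h1 i) j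
    change ∑ k, F.ψ (M i k) * T.D g k j = T.D g i j
    rw [← F.sec (T.D g i j), ← h3, map_sum]
    exact Finset.sum_congr rfl fun k _ => by rw [F.right]
  · ext i j
    have h3 : ∑ k, F.ι (T.D (g + 1) i k) * M k j = 0 := congrFun (congrFun h2 i) j
    change ∑ k, T.D (g + 1) i k * F.ψ (M k j) = 0
    rw [← map_zero F.ψ, ← h3, map_sum]
    exact Finset.sum_congr rfl fun k _ => by rw [F.left]

/-- exactness of the dual passes to `R` -/
theorem coex_down {T : RC R} {l : ℕ} (h : (T.map F.ι).CoEx l) : T.CoEx l := by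
  have h0 : ∀ (k : ℕ) (y : T.ι k → R), Matrix.mulVec (T.D k) y = 0 →
      Matrix.mulVec ((T.map F.ι).D k) (fun i => F.ι (y i)) = 0 := by
    intro k y hy
    funext i
    have h1 := congrFun hy i
    change ∑ j, F.ι (T.D k i j) * F.ι (y j) = 0
    have h2 : ∑ j, T.D k i j * y j = 0 := h1
    rw [← map_zero F.ι, ← h2, map_sum]
    exact Finset.sum_congr rfl fun j _ => by rw [map_mul]
  cases l with
  | zero =>
    intro y hy
    have h1 := h (fun i => F.ι (y i)) (h0 0 y hy)
    funext i
    have h2 : F.ι (y i) = 0 := congrFun h1 i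
    rw [← F.sec (y i), h2, map_zero]
    rfl
  | succ l =>
    intro y hy
    obtain ⟨z, hz⟩ := h (fun i => F.ι (y i)) (h0 (l + 1) y hy)
    refine ⟨fun i => F.ψ (z i), ?_⟩
    funext i
    have h2 : ∑ j, F.ι (T.D l i j) * z j = F.ι (y i) := congrFun hz i
    change ∑ j, T.D l i j * F.ψ (z j) = y i
    rw [← F.sec (y i), ← h2, map_sum]
    exact Finset.sum_congr rfl fun j _ => by rw [F.left]

variable [StarRing R] [StarRing S]

theorem conj_map (hs : ∀ r, star (F.ι r) = F.ι (star r)) {I J : Type} (D : Matrix I J R) :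
    (D.map F.ι).conjTranspose = D.conjTranspose.map F.ι := Matrix.ext fun i j => hs (D j i)

include F in
/-- `AR1` passes to `R` -/
theorem ar1 (hs : ∀ r, star (F.ι r) = F.ι (star r)) (hc : CohT S) (h : AR1 S) : AR1 R := by
  classical
  have hcR := F.coh hc
  intro T hT p N hN
  have h1 := fp_E hcR T (p + 1)
  have h2 := fp_submodule hcR N hN
  obtain ⟨P, ⟨r⟩⟩ := exists_res_coh hcR N
  -- the matrix of cocycles
  have hz : ∀ i : P.ι 0, ∃ z : T.cy (p + 1),
      (Submodule.Quotient.mk z : T.E (p + 1)) = (r.ε (Pi.single i 1)).1 :=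
    fun i => Submodule.Quotient.mk_surjective _ _
  choose z hz' using hz
  let Z : Matrix (P.ι 0) (T.ι (p + 1)) R := fun i => (z i : T.ι (p + 1) → R)
  have hZc : ∀ x : P.ι 0 → R, Matrix.vecMul x Z ∈ T.cy (p + 1) := by
    intro x
    have h3 : Matrix.vecMul x Z = ∑ i, x i • (z i : T.ι (p + 1) → R) := by
      funext j
      simp only [Matrix.vecMul, dotProduct, Finset.sum_apply, Pi.smul_apply, smul_eq_mul, Z]
    rw [h3]
    exact Submodule.sum_mem _ fun i _ => Submodule.smul_mem _ _ (z i).2
  have hε : ∀ x : P.ι 0 → R, (r.ε x).1 =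
      (Submodule.Quotient.mk ⟨Matrix.vecMul x Z, hZc x⟩ : T.E (p + 1)) := by
    intro x
    have h3 : x = ∑ i, x i • (Pi.single i (1 : R) : P.ι 0 → R) := by
      funext k
      simp [Finset.sum_apply, Pi.single_apply]
    have h4 : (r.ε x).1 = ∑ i, x i • (r.ε (Pi.single i 1)).1 := by
      conv_lhs => rw [h3, map_sum]
      rw [AddSubmonoidClass.coe_finsetSum]
      exact Finset.sum_congr rfl fun i _ => by rw [map_smul]; rfl
    have h5 : (⟨Matrix.vecMul x Z, hZc x⟩ : T.cy (p + 1)) = ∑ i, x i • z i := by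
      apply Subtype.ext
      rw [AddSubmonoidClass.coe_finsetSum]
      funext j
      simp only [Matrix.vecMul, dotProduct, Finset.sum_apply, Z]
      exact Finset.sum_congr rfl fun i _ => rfl
    have h6 : (Submodule.Quotient.mk ⟨Matrix.vecMul x Z, hZc x⟩ : T.E (p + 1)) =
        Submodule.mkQ ((T.bd (p + 1)).comap (T.cy (p + 1)).subtype) (∑ i, x i • z i) := by
      rw [← h5]
      rfl
    rw [h4, h6, map_sum]
    exact Finset.sum_congr rfl fun i _ => by rw [map_smul, ← hz']; rfl
  have hε0 : ∀ x : P.ι 0 → R, r.ε x = 0 ↔ Matrix.vecMul x Z ∈ T.bd (p + 1) := by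
    intro x
    rw [← U5_E_zero T (p + 1) ⟨Matrix.vecMul x Z, hZc x⟩, ← hε]
    exact Subtype.ext_iff
  -- the extended matrix
  let T' := T.map F.ι
  have hZc' : ∀ x : P.ι 0 → S, Matrix.vecMul x (Z.map F.ι) ∈ T'.cy (p + 1) := by
    intro x
    change Matrix.vecMul (Matrix.vecMul x (Z.map F.ι))
      ((T.D (p + 1)).map F.ι).conjTranspose = 0
    rw [F.conj_map hs, Matrix.vecMul_vecMul, ← Matrix.map_mul]
    have h3 : Z * (T.D (p + 1)).conjTranspose = 0 := by
      apply Matrix.ext
      intro i j
      exact congrFun (show Matrix.vecMul (z i : T.ι (p + 1) → R)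
        (T.D (p + 1)).conjTranspose = 0 from (z i).2) j
    rw [h3, Matrix.map_zero _ (map_zero _), Matrix.vecMul_zero]
  let ε' : (P.ι 0 → S) →ₗ[S] T'.E (p + 1) :=
    (Submodule.mkQ _).comp ((Matrix.vecMulLinear (Z.map F.ι)).codRestrict (T'.cy (p + 1)) hZc')
  have hε' : ∀ x : P.ι 0 → S, ε' x = 0 ↔ Matrix.vecMul x (Z.map F.ι) ∈ T'.bd (p + 1) := by
    intro x
    exact U5_E_zero T' (p + 1) ⟨Matrix.vecMul x (Z.map F.ι), hZc' x⟩
  have hbd : ∀ x : T.ι (p + 1) → S, x ∈ T'.bd (p + 1) ↔
      ∃ w, Matrix.vecMul w ((T.D p).conjTranspose.map F.ι) = x := by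
    intro x
    have h3 : x ∈ T'.bd (p + 1) ↔ ∃ w, Matrix.vecMul w
        ((T.D p).map F.ι).conjTranspose = x := Iff.rfl
    rw [h3, F.conj_map hs]
  let r' : Res (P.map F.ι) (LinearMap.range ε') :=
    { ε := ε'.rangeRestrict
      surj := ε'.surjective_rangeRestrict
      zero := by
        intro x
        apply Subtype.ext
        change ε' (Matrix.vecMul x ((P.D 0).map F.ι)) = 0
        rw [hε', hbd]
        have h3 : ∀ i, ∃ w, Matrix.vecMul w (T.D p).conjTranspose =
            Matrix.vecMul (P.D 0 i) Z := by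
          intro i
          have h4 := r.zero (Pi.single i 1)
          rw [Matrix.single_one_vecMul] at h4
          exact (hε0 _).1 h4
        choose B hB using h3
        obtain ⟨B', hB'⟩ : ∃ B' : Matrix (P.ι (0 + 1)) (T.ι p) R, B' = B := ⟨B, rfl⟩
        have h4 : P.D 0 * Z = B' * (T.D p).conjTranspose := by
          apply Matrix.ext
          intro i j
          rw [hB']
          exact (congrFun (hB i) j).symm
        have h5 : ∀ x : P.ι (0 + 1) → S, Matrix.vecMul (Matrix.vecMul x (B'.map F.ι))
            ((T.D p).conjTranspose.map F.ι) =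
            Matrix.vecMul (Matrix.vecMul x ((P.D 0).map F.ι)) (Z.map F.ι) := by
          intro x
          rw [Matrix.vecMul_vecMul, ← Matrix.map_mul, ← h4, Matrix.map_mul, Matrix.vecMul_vecMul]
        exact ⟨Matrix.vecMul (x : P.ι (0 + 1) → S) (B'.map F.ι), h5 x⟩
      ker := by
        intro x hx
        have h3 : Matrix.vecMul x (Z.map F.ι) ∈ T'.bd (p + 1) :=
          (hε' x).1 (congrArg Subtype.val hx)
        rw [hbd] at h3
        obtain ⟨w, hw⟩ := h3
        refine F.row_lift (P.D 0) x fun g => ?_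
        refine r.ker _ ((hε0 _).2 ?_)
        refine ⟨fun i => F.ψ (g * w i), ?_⟩
        funext j
        rw [← F.psi_vecMul, hw]
        exact F.psi_vecMul Z g x j
      ex := fun k => F.ex_up (r.ex k) }
  have hfg : (LinearMap.range ε').FG := by
    rw [LinearMap.range_eq_map]
    exact Module.Finite.fg_top.map _
  have h3 := h T' (fun k => F.ex_up (hT k)) p (LinearMap.range ε') hfg
  exact (ge_iff r p).2 fun l hl => F.coex_down ((ge_iff r' p).1 h3 l hl)

end

end Ret

section
variable {A : Type u} [CommRing A] {H : Type v} [Group H]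

/-- the group ring of a subgroup -/
theorem exists_ret_sub (L : Subgroup H) : ∃ F : Ret A[L] A[H], F.ι = iotaN L := by
  refine ⟨⟨iotaN L, psiN L, psiN_left L, psiN_iota_right L, psiN_iota L, ?_⟩, rfl⟩
  intro J _ y
  obtain ⟨C, hC⟩ := coset_sum_vec L y
  refine ⟨C.card, fun i => single (C.equivFin.symm i).1.out 1,
    fun i => single ((C.equivFin.symm i).1.out)⁻¹ 1, fun j => ?_⟩
  have h1 := congrFun hC j
  rw [Finset.sum_apply] at h1
  refine h1.trans ?_
  rw [← Finset.sum_coe_sort]
  exact Fintype.sum_equiv C.equivFin _ _ fun c => by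
    simp only [Equiv.symm_apply_apply]
    rfl

/-- the group ring of a group which embeds -/
theorem exists_ret {K : Type w} [Group K] (f : K →* H) (hf : Function.Injective f) :
    ∃ F : Ret A[K] A[H], F.ι = MonoidAlgebra.mapDomainRingHom A f := by
  obtain ⟨F, hF⟩ := exists_ret_sub (A := A) f.range
  let e : A[K] ≃+* A[f.range] := mapDomainRingEquiv A (MonoidHom.ofInjective hf)
  refine ⟨⟨F.ι.comp (e : A[K] →+* A[f.range]), (e.symm : A[f.range] →+ A[K]).comp F.ψ,
    ?_, ?_, ?_, ?_⟩, ?_⟩
  · intro r s
    change e.symm (F.ψ (F.ι (e r) * s)) = r * e.symm (F.ψ s)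
    rw [F.left, map_mul, e.symm_apply_apply]
  · intro s r
    change e.symm (F.ψ (s * F.ι (e r))) = e.symm (F.ψ s) * r
    rw [F.right, map_mul, e.symm_apply_apply]
  · intro r
    change e.symm (F.ψ (F.ι (e r))) = r
    rw [F.sec, e.symm_apply_apply]
  · intro J _ y
    obtain ⟨n, b, b', hb⟩ := F.dec J y
    refine ⟨n, b, b', fun j => (hb j).trans (Finset.sum_congr rfl fun i _ => ?_)⟩
    change b i * F.ι (F.ψ (b' i * y j)) = b i * F.ι (e (e.symm (F.ψ (b' i * y j))))
    rw [e.apply_symm_apply]
  · change F.ι.comp (e : A[K] →+* A[f.range]) = _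
    rw [hF]
    refine RingHom.ext fun x => ?_
    induction x using MonoidAlgebra.induction_linear with
    | zero => rw [map_zero, map_zero]
    | add x y hx hy => rw [map_add, map_add, hx, hy]
    | single k a =>
      change iotaN f.range (mapDomain (MonoidHom.ofInjective hf) (single k a)) =
        mapDomain f (single k a)
      rw [mapDomain_single, mapDomain_single, iotaN_single]
      rfl

variable {K : Type w} [Group K]

/-- **coherence passes to subgroups** -/
theorem coh_sub (f : K →* H) (hf : Function.Injective f) (h : CohT A[H]) : CohT A[K] := by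
  obtain ⟨F, -⟩ := exists_ret (A := A) f hf
  exact F.coh h

/-- **finite dimension passes to subgroups** -/
theorem fl_sub (f : K →* H) (hf : Function.Injective f) {g : ℕ} (h : FL A[H] g) : FL A[K] g := by
  obtain ⟨F, -⟩ := exists_ret (A := A) f hf
  exact F.fl h

variable [StarRing A]

attribute [local instance] starMA

/-- **`AR1` passes to subgroups** -/
theorem ar1_sub (f : K →* H) (hf : Function.Injective f) (hc : CohT A[H]) (h : AR1 A[H]) :
    AR1 A[K] := by
  obtain ⟨F, hF⟩ := exists_ret (A := A) f hf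
  refine F.ar1 (fun r => ?_) hc h
  rw [hF]
  exact starMA_map f r

end

end Pool.Agent.T4S
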