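import Mathlib
import Pool.Agent.Lib.UP25.Ses

/-!
# T4S: coherence of group rings of groups acting on trees (Waldhausen)

`H` acts on a tree with finitely many orbits of vertices and edges, the group rings of the
stabilisers of the edges are Noetherian, those of the vertices coherent: then `A[H]` is coherent.
-/

set_option autoImplicit false
set_option linter.unusedSectionVars false

open MonoidAlgebra Pool.Agent.UP Pool.Agent.UPV Pool.Agent.UP25

namespace Pool.Agent.T4S

universe u v w

/-! ## Finite convex sets of vertices -/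

section hull

variable {V : Type v} {Γ : SimpleGraph V}

/-- the vertices between `r` and `p` -/
def ivl (Γ : SimpleGraph V) (r p : V) : Set V := {y | Γ.dist r y + Γ.dist y p = Γ.dist r p}

/-- convex sets -/
def Cvx (Γ : SimpleGraph V) (Y : Set V) : Prop :=
  ∀ x ∈ Y, ∀ z ∈ Y, ∀ y, Γ.Adj x y → Γ.dist z x = Γ.dist z y + 1 → y ∈ Y

variable (hΓ : Γ.IsTree)
include hΓ

theorem parent_unique {r p q q' : V} (h1 : Γ.Adj p q) (h2 : Γ.Adj p q')
    (h3 : Γ.dist r p = Γ.dist r q + 1) (h4 : Γ.dist r p = Γ.dist r q' + 1) : q = q' := by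
  have hd : Γ.dist p q' = 1 := SimpleGraph.dist_eq_one_iff_adj.2 h2
  rcases adj_cases hΓ h1 q' with h | h
  · rw [SimpleGraph.dist_comm, hd] at h
    have h5 : Γ.dist q' q = 0 := by omega
    exact (hΓ.connected.dist_eq_zero_iff.1 h5).symm
  · have h5 := tree_through hΓ h1 h3 _ q' rfl h
    omega

theorem ivl_finite (r : V) (n : ℕ) : ∀ p : V, Γ.dist r p = n → (ivl Γ r p).Finite := by
  induction n with
  | zero =>
    intro p hp
    refine (Set.finite_singleton r).subset fun y hy => ?_
    have h1 : Γ.dist r y + Γ.dist y p = Γ.dist r p := hy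
    have h2 : Γ.dist r y = 0 := by omega
    exact (hΓ.connected.dist_eq_zero_iff.1 h2).symm
  | succ n ih =>
    intro p hp
    have hne : p ≠ r := by
      rintro rfl
      rw [SimpleGraph.dist_self] at hp
      omega
    obtain ⟨q, hq, hq'⟩ := exists_parent hΓ hne
    refine ((ih q (by omega)).insert p).subset fun y hy => ?_
    have h1 : Γ.dist r y + Γ.dist y p = Γ.dist r p := hy
    by_cases hyp : y = p
    · exact Or.inl hyp
    · right
      obtain ⟨q2, h2, h3⟩ := exists_parent (r := y) hΓ (Ne.symm hyp)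
      have h4 : Γ.dist r q2 ≤ Γ.dist r y + Γ.dist y q2 := hΓ.connected.dist_triangle
      have h5 : Γ.dist r p = Γ.dist r q2 + 1 := by
        rcases adj_cases hΓ h2 r with h | h
        · exact h
        · omega
      have h6 := parent_unique hΓ hq h2 hq' h5
      change Γ.dist r y + Γ.dist y q = Γ.dist r q
      rw [h6]
      omega

theorem exists_cvx (S : Set V) (hS : S.Finite) :
    ∃ Y : Set V, Y.Finite ∧ S ⊆ Y ∧ Cvx Γ Y := by
  obtain ⟨r⟩ := hΓ.connected.nonempty
  refine ⟨⋃ p ∈ S, ivl Γ r p, hS.biUnion fun p _ => ivl_finite hΓ r _ p rfl, ?_, ?_⟩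
  · intro p hp
    refine Set.mem_biUnion hp ?_
    change Γ.dist r p + Γ.dist p p = Γ.dist r p
    rw [SimpleGraph.dist_self, add_zero]
  · intro x hx z hz y hxy hzx
    simp only [Set.mem_iUnion] at hx hz ⊢
    obtain ⟨p, hp, hx⟩ := hx
    obtain ⟨p', hp', hz⟩ := hz
    rcases adj_cases hΓ hxy r with h | h
    · refine ⟨p, hp, ?_⟩
      have h1 : Γ.dist r x + Γ.dist x p = Γ.dist r p := hx
      have h2 : Γ.dist r p ≤ Γ.dist r y + Γ.dist y p := hΓ.connected.dist_triangle
      have h3 : Γ.dist y p ≤ Γ.dist y x + Γ.dist x p := hΓ.connected.dist_triangle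
      have h4 : Γ.dist y x = 1 := SimpleGraph.dist_eq_one_iff_adj.2 hxy.symm
      change Γ.dist r y + Γ.dist y p = Γ.dist r p
      omega
    · refine ⟨p', hp', ?_⟩
      have h1 := tree_through hΓ hxy.symm h _ z rfl hzx
      have h2 : Γ.dist r z + Γ.dist z p' = Γ.dist r p' := hz
      have h3 : Γ.dist r p' ≤ Γ.dist r y + Γ.dist y p' := hΓ.connected.dist_triangle
      have h4 : Γ.dist y p' ≤ Γ.dist y z + Γ.dist z p' := hΓ.connected.dist_triangle
      change Γ.dist r y + Γ.dist y p' = Γ.dist r p'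
      omega

end hull

/-! ## Lattices in free modules -/

section lat

variable {H : Type v} [Group H] {X : Type v} [MulAction H X] {A : Type u} [CommRing A]
  (Y : Set X) (ι : Type)

variable (A) in
/-- the vectors whose support lies in the set of the `h` with `h⁻¹ • x ∈ Y` -/
def lt (x : X) : AddSubgroup (ι → A[H]) where
  carrier := {y | ∀ a h, (y a).coeff h ≠ 0 → h⁻¹ • x ∈ Y}
  add_mem' := by
    intro y z hy hz a h hh
    rw [Pi.add_apply, coeff_add, Finsupp.add_apply] at hh
    by_cases h1 : (y a).coeff h = 0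
    · rw [h1, zero_add] at hh
      exact hz a h hh
    · exact hy a h h1
  zero_mem' := by
    intro a h hh
    exact absurd (by rw [Pi.zero_apply, coeff_zero, Finsupp.zero_apply]) hh
  neg_mem' := by
    intro y hy a h hh
    refine hy a h fun h0 => hh ?_
    rw [Pi.neg_apply, coeff_neg, Finsupp.neg_apply, h0, neg_zero]

theorem mem_lt {x : X} {y : ι → A[H]} :
    y ∈ lt A Y ι x ↔ ∀ a h, (y a).coeff h ≠ 0 → h⁻¹ • x ∈ Y := Iff.rfl

variable {K : Type w} [AddCommGroup K] [Module A[H] K]

/-- the family of the lattices in a submodule of a free module -/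
noncomputable def ltF (j : K →ₗ[A[H]] (ι → A[H])) : EqFam A H X K where
  U x := (lt A Y ι x).comap j.toAddMonoidHom
  mem h b x k hk := by
    change j ((single h b : A[H]) • k) ∈ lt A Y ι (h • x)
    replace hk : j k ∈ lt A Y ι x := hk
    rw [map_smul]
    intro a g hg
    rw [Pi.smul_apply, smul_eq_mul, coeff_single_mul_apply] at hg
    have h1 := hk a (h⁻¹ * g) (fun h0 => hg (by rw [h0, mul_zero]))
    rwa [mul_inv_rev, inv_inv, mul_smul] at h1

theorem mem_ltF (j : K →ₗ[A[H]] (ι → A[H])) (x : X) (k : K) :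
    k ∈ (ltF Y ι j).U x ↔ j k ∈ lt A Y ι x := Iff.rfl

/-- the coordinates over the group ring of a subgroup `L` on the right cosets `L c`, `c ∈ C` -/
noncomputable def coP (L : Subgroup H) (C : Finset H) :
    Rs L (ι → A[H]) →ₗ[A[L]] (C × ι → A[L]) where
  toFun y q := psiN L ((toRs L (ι → A[H])).symm y q.2 * single (q.1 : H)⁻¹ 1)
  map_add' y z := by
    funext q
    rw [map_add, Pi.add_apply, add_mul, map_add]
    rfl
  map_smul' r y := by
    funext q
    rw [rs_smul, Pi.smul_apply, smul_eq_mul, mul_assoc, psiN_left]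
    rfl

/-- the coordinates determine the elements of the lattice -/
theorem exists_coP (hY : Y.Finite) (x : X) : ∃ C : Finset H, ∀ y ∈ lt A Y ι x,
    coP (A := A) ι (MulAction.stabilizer H x) C (toRs _ _ y) = 0 → y = 0 := by
  classical
  let c : X → H := fun y => if h : ∃ c : H, c⁻¹ • x = y then h.choose else 1
  refine ⟨hY.toFinset.image c, fun y hy h0 => ?_⟩
  funext a
  apply coeff_injective
  ext h
  rw [Pi.zero_apply, coeff_zero, Finsupp.zero_apply]
  by_contra hh
  have h1 : h⁻¹ • x ∈ Y := hy a h hh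
  have h2 : (c (h⁻¹ • x))⁻¹ • x = h⁻¹ • x := by
    have hex : ∃ c : H, c⁻¹ • x = h⁻¹ • x := ⟨h, rfl⟩
    change (dite _ _ _ : H)⁻¹ • x = _
    rw [dif_pos hex]
    exact hex.choose_spec
  have h3 : h * (c (h⁻¹ • x))⁻¹ ∈ MulAction.stabilizer H x := by
    rw [MulAction.mem_stabilizer_iff, mul_smul, h2, smul_inv_smul]
  have h4 : c (h⁻¹ • x) ∈ hY.toFinset.image c :=
    Finset.mem_image_of_mem c (hY.mem_toFinset.2 h1)
  have h5 := congrFun h0 (⟨c (h⁻¹ • x), h4⟩, a)
  have h6 := congrArg (fun s : A[MulAction.stabilizer H x] => s.coeff ⟨_, h3⟩) h5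
  change (y a * single (c (h⁻¹ • x))⁻¹ 1).coeff (h * (c (h⁻¹ • x))⁻¹) = _ at h6
  rw [coeff_mul_single_apply] at h6
  simp only [inv_inv, inv_mul_cancel_right, mul_one] at h6
  exact hh h6

end lat

/-! ## Finiteness of the members of a family -/

section fin

variable {A : Type u} {H : Type v} [CommRing A] [Group H] {X : Type v} [MulAction H X]
  {K : Type w} [AddCommGroup K] [Module A[H] K] (F : EqFam A H X K)

/-- the coordinates on a member of a family -/
noncomputable def locC (ι : Type) (j : K →ₗ[A[H]] (ι → A[H])) (x : X) (C : Finset H) :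
    F.loc (MulAction.stabilizer H x) x (stab_fix x) →ₗ[A[MulAction.stabilizer H x]]
      (C × ι → A[MulAction.stabilizer H x]) :=
  (coP (A := A) ι (MulAction.stabilizer H x) C).comp
    ((rsMap (MulAction.stabilizer H x) j).comp
      (F.loc (MulAction.stabilizer H x) x (stab_fix x)).subtype)

theorem exists_locC (ι : Type) (j : K →ₗ[A[H]] (ι → A[H])) (hj : Function.Injective j)
    (Y : Set X) (hY : Y.Finite) (x : X) (hx : ∀ k ∈ F.U x, j k ∈ lt (H := H) A Y ι x) :
    ∃ C : Finset H, Function.Injective (locC F ι j x C) := by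
  obtain ⟨C, hC⟩ := exists_coP (H := H) (A := A) Y ι hY x
  refine ⟨C, ?_⟩
  rw [← LinearMap.ker_eq_bot, eq_bot_iff]
  intro k hk
  have h1 : j k.1 = 0 := hC (j k.1) (hx k.1 k.2) hk
  exact Subtype.ext (hj (h1.trans (map_zero j).symm))

theorem loc_fg_noeth (ι : Type) [Finite ι] (j : K →ₗ[A[H]] (ι → A[H]))
    (hj : Function.Injective j) (Y : Set X) (hY : Y.Finite) (x : X)
    (hx : ∀ k ∈ F.U x, j k ∈ lt (H := H) A Y ι x)
    (hn : IsNoetherianRing A[MulAction.stabilizer H x]) :
    (F.loc (MulAction.stabilizer H x) x (stab_fix x)).FG := by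
  obtain ⟨C, hC⟩ := exists_locC F ι j hj Y hY x hx
  have h1 : IsNoetherian A[MulAction.stabilizer H x]
      (F.loc (MulAction.stabilizer H x) x (stab_fix x)) :=
    isNoetherian_of_injective _ hC
  exact Module.Finite.iff_fg.1 inferInstance

theorem loc_fp (ι : Type) [Finite ι] (j : K →ₗ[A[H]] (ι → A[H]))
    (hj : Function.Injective j) (Y : Set X) (hY : Y.Finite) (x : X)
    (hx : ∀ k ∈ F.U x, j k ∈ lt (H := H) A Y ι x)
    (hc : CohT A[MulAction.stabilizer H x])
    (hfg : (F.loc (MulAction.stabilizer H x) x (stab_fix x)).FG) :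
    Module.FinitePresentation A[MulAction.stabilizer H x]
      (F.loc (MulAction.stabilizer H x) x (stab_fix x)) := by
  obtain ⟨C, hC⟩ := exists_locC F ι j hj Y hY x hx
  have h1 : Module.Finite A[MulAction.stabilizer H x]
      (F.loc (MulAction.stabilizer H x) x (stab_fix x)) := Module.Finite.iff_fg.2 hfg
  have h2 : (LinearMap.range (locC F ι j x C)).FG := Module.Finite.iff_fg.1 inferInstance
  have h3 := fp_submodule hc (LinearMap.range (locC F ι j x C)) h2
  exact Module.FinitePresentation.of_equiv (LinearEquiv.ofInjective _ hC).symm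

/-- if the total module is finitely generated then the members are -/
theorem loc_fg_of_tot (hF : F.tot.FG) (x : X) :
    (F.loc (MulAction.stabilizer H x) x (stab_fix x)).FG := by
  classical
  obtain ⟨m, f, hf⟩ := Submodule.fg_iff_exists_fin_generating_family.1 hF
  have hfm : ∀ i, f i ∈ F.tot := fun i => by
    rw [← hf]
    exact Submodule.subset_span ⟨i, rfl⟩
  choose S hS using fun i => tw_sum (f i)
  let c : X → H := fun z => if h : ∃ c : H, c • z = x then h.choose else 1
  have hc : ∀ z (h : H), h • z = x → c z • z = x := by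
    intro z h hz
    have hex : ∃ c : H, c • z = x := ⟨h, hz⟩
    change (dite _ _ _ : H) • z = x
    rw [dif_pos hex]
    exact hex.choose_spec
  -- the generators
  let G : Finset (Rs (MulAction.stabilizer H x) K) :=
    Finset.univ.biUnion fun i => ((S i).filter fun z => ∃ h : H, h • z = x).image fun z =>
      toRs (MulAction.stabilizer H x) K ((single (c z) 1 : A[H]) • val z (f i))
  have hG : ∀ i, ∀ z ∈ S i, (∃ h : H, h • z = x) →
      toRs (MulAction.stabilizer H x) K ((single (c z) 1 : A[H]) • val z (f i)) ∈ G := by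
    intro i z hz hh
    refine Finset.mem_biUnion.2 ⟨i, Finset.mem_univ _, ?_⟩
    exact Finset.mem_image.2 ⟨z, Finset.mem_filter.2 ⟨hz, hh⟩, rfl⟩
  refine ⟨G, le_antisymm ?_ ?_⟩
  · rw [Submodule.span_le]
    intro k hk
    obtain ⟨i, -, hk⟩ := Finset.mem_biUnion.1 hk
    obtain ⟨z, hz, rfl⟩ := Finset.mem_image.1 hk
    obtain ⟨h, hh⟩ := (Finset.mem_filter.1 hz).2
    have h1 := F.mem (c z) 1 z _ (hfm i z)
    rw [hc z h hh] at h1
    exact h1
  · intro k hk
    -- values at `x` of multiples of the generators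
    have key : ∀ (r : A[H]) (i : Fin m), toRs (MulAction.stabilizer H x) K (val x (r • f i)) ∈
        Submodule.span A[MulAction.stabilizer H x]
          (G : Set (Rs (MulAction.stabilizer H x) K)) := by
      intro r i
      induction r using MonoidAlgebra.induction_linear with
      | zero => rw [zero_smul, map_zero, map_zero]; exact Submodule.zero_mem _
      | add r s hr hs => rw [add_smul, map_add, map_add]; exact Submodule.add_mem _ hr hs
      | single h a =>
        rw [hS i, Finset.smul_sum, map_sum, map_sum]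
        refine Submodule.sum_mem _ fun z hz => ?_
        rw [Tw.single_smul]
        by_cases hzx : h • z = x
        · have h2 : h * (c z)⁻¹ ∈ MulAction.stabilizer H x := by
            rw [MulAction.mem_stabilizer_iff, mul_smul, inv_smul_eq_iff.2 (hc z h hzx).symm, hzx]
          have h3 : (single h a : A[H]) • val z (f i) =
              iotaN (MulAction.stabilizer H x) (single (⟨h * (c z)⁻¹, h2⟩ : _) a) •
                ((single (c z) 1 : A[H]) • val z (f i)) := by
            rw [iotaN_single, ← mul_smul, single_mul_single, mul_one]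
            simp only [inv_mul_cancel_right]
          rw [hzx, val_mk_same, h3, ← toRs_smul]
          exact Submodule.smul_mem _ _ (Submodule.subset_span (hG i z hz ⟨h, hzx⟩))
        · rw [val_mk_ne hzx, map_zero]
          exact Submodule.zero_mem _
    obtain ⟨k0, rfl⟩ := (toRs (MulAction.stabilizer H x) K).surjective k
    have hk0 : k0 ∈ F.U x := hk
    have h1 : Tw.mk A H x k0 ∈ F.tot := F.mk_mem hk0
    rw [← hf] at h1
    obtain ⟨r, hr⟩ := (Submodule.mem_span_range_iff_exists_fun A[H]).1 h1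
    have h2 : toRs (MulAction.stabilizer H x) K k0 =
        ∑ i, toRs (MulAction.stabilizer H x) K (val x (r i • f i)) := by
      rw [← map_sum, ← map_sum, hr, val_mk_same]
    rw [h2]
    exact Submodule.sum_mem _ fun i _ => key _ _

/-- the total module is finitely presented if the members are -/
theorem tot_fp (hfin : Finite (MulAction.orbitRel.Quotient H X))
    (hc : ∀ x : X, CohT A[MulAction.stabilizer H x])
    (hfp : ∀ x : X, Module.FinitePresentation A[MulAction.stabilizer H x]
      (F.loc (MulAction.stabilizer H x) x (stab_fix x))) :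
    Module.FinitePresentation A[H] F.tot := by
  obtain ⟨n, x, hx1, hx2⟩ := exists_orbit_reps H X hfin
  have h1 : ∀ i, ∃ T : RC A[MulAction.stabilizer H (x i)],
      Nonempty (Res T (F.loc (MulAction.stabilizer H (x i)) (x i) (stab_fix _))) := by
    intro i
    have := hfp (x i)
    exact exists_res_coh (hc (x i)) _
  choose T hT using h1
  obtain ⟨r⟩ := res_tot F x T (fun i => SRes.of_res _ _ _ (hT i).some) hx1 hx2
  exact fp_of_res r

end fin

/-! ## Groups acting on trees -/

/-- `H` acts by automorphisms on a tree, with an invariant orientation of the edges -/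
structure TA (H : Type v) [Group H] (V : Type v) [MulAction H V] where
  Γ : SimpleGraph V
  tree : Γ.IsTree
  adj : ∀ (h : H) (x y : V), Γ.Adj x y → Γ.Adj (h • x) (h • y)
  or : Orient Γ
  orP : ∀ (h : H) (x y : V), or.P x y → or.P (h • x) (h • y)

namespace TA

variable {H : Type v} [Group H] {V : Type v} [MulAction H V] (T : TA H V)

/-- the oriented edges -/
abbrev E : Type v := T.or.E

instance : MulAction H T.E where
  smul h e := ⟨(h • e.1.1, h • e.1.2), T.adj h _ _ e.2.1, T.orP h _ _ e.2.2⟩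
  one_smul e := Subtype.ext (Prod.ext (one_smul H _) (one_smul H _))
  mul_smul g h e := Subtype.ext (Prod.ext (mul_smul g h _) (mul_smul g h _))

theorem smul_fst (h : H) (e : T.E) : (h • e : T.E).1.1 = h • e.1.1 := rfl

theorem smul_snd (h : H) (e : T.E) : (h • e : T.E).1.2 = h • e.1.2 := rfl

/-- the stabiliser of an edge fixes both ends -/
theorem mem_stabE (h : H) (e : T.E) :
    h ∈ MulAction.stabilizer H e ↔ h • e.1.1 = e.1.1 ∧ h • e.1.2 = e.1.2 := by
  rw [MulAction.mem_stabilizer_iff]
  constructor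
  · intro hh
    exact ⟨congrArg (fun f : T.E => f.1.1) hh, congrArg (fun f : T.E => f.1.2) hh⟩
  · rintro ⟨h1, h2⟩
    exact Subtype.ext (Prod.ext h1 h2)

theorem walk (h : H) {x y : V} (p : T.Γ.Walk x y) :
    ∃ q : T.Γ.Walk (h • x) (h • y), q.length = p.length := by
  induction p with
  | nil => exact ⟨SimpleGraph.Walk.nil, rfl⟩
  | cons hadj p ih =>
    obtain ⟨q, hq⟩ := ih
    exact ⟨SimpleGraph.Walk.cons (T.adj h _ _ hadj) q, by
      rw [SimpleGraph.Walk.length_cons, SimpleGraph.Walk.length_cons, hq]⟩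

theorem dist_le (h : H) (x y : V) : T.Γ.dist (h • x) (h • y) ≤ T.Γ.dist x y := by
  obtain ⟨p, hp⟩ := T.tree.connected.exists_walk_length_eq_dist x y
  obtain ⟨q, hq⟩ := T.walk h p
  rw [← hp, ← hq]
  exact SimpleGraph.dist_le q

theorem dist_smul (h : H) (x y : V) : T.Γ.dist (h • x) (h • y) = T.Γ.dist x y := by
  apply le_antisymm (T.dist_le h x y)
  have h1 := T.dist_le h⁻¹ (h • x) (h • y)
  rwa [inv_smul_smul, inv_smul_smul] at h1

variable {A : Type u} [CommRing A] {K : Type w} [AddCommGroup K] [Module A[H] K]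

/-- the family of the intersections on the edges -/
noncomputable def edge (F : EqFam A H V K) : EqFam A H T.E K where
  U e := F.U e.1.1 ⊓ F.U e.1.2
  mem h a _ m hm := ⟨F.mem h a _ m hm.1, F.mem h a _ m hm.2⟩

variable (A K) in
/-- the boundary -/
noncomputable def bdL : Tw A H T.E K →ₗ[A[H]] Tw A H V K :=
  Tw.lift A H (fun e => (Finsupp.singleAddHom (M := K) e.1.2 - Finsupp.singleAddHom (M := K) e.1.1 :
    K →+ (V →₀ K))) (fun g a e m => by
      change Tw.mk A H (g • e.1.2) ((single g a : A[H]) • m) -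
        Tw.mk A H (g • e.1.1) ((single g a : A[H]) • m) =
        (single g a : A[H]) • (Tw.mk A H e.1.2 m - Tw.mk A H e.1.1 m)
      rw [smul_sub, Tw.single_smul, Tw.single_smul])

variable {T}

theorem bd_mem (F : EqFam A H V K) (g : T.E →₀ K)
    (hg : ∀ e, g e ∈ F.U e.1.1 ∧ g e ∈ F.U e.1.2) (x : V) : bdE T.or K g x ∈ F.U x := by
  rw [bdE_apply]
  refine (F.U x).sum_mem fun e _ => ?_
  refine (F.U x).sub_mem ?_ ?_
  · by_cases h : e.1.2 = x
    · rw [← h, Finsupp.single_eq_same]
      exact (hg e).2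
    · rw [Finsupp.single_eq_of_ne (Ne.symm h)]
      exact (F.U x).zero_mem
  · by_cases h : e.1.1 = x
    · rw [← h, Finsupp.single_eq_same]
      exact (hg e).1
    · rw [Finsupp.single_eq_of_ne (Ne.symm h)]
      exact (F.U x).zero_mem

/-- the exact sequence of a family -/
theorem ses {F : EqFam A H V K}
    (hs : ∀ k : K, ∃ f : V →₀ K, (∀ x, f x ∈ F.U x) ∧ sumV V K f = k)
    (he : ∀ f : V →₀ K, (∀ x, f x ∈ F.U x) → sumV V K f = 0 →
      ∃ g : T.E →₀ K, (∀ e, g e ∈ F.U e.1.1 ∧ g e ∈ F.U e.1.2) ∧ bdE T.or K g = f) :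
    ∃ (φ : (T.edge F).tot →ₗ[A[H]] F.tot) (ψ : F.tot →ₗ[A[H]] K), Function.Injective φ ∧
      Function.Surjective ψ ∧ LinearMap.range φ = LinearMap.ker ψ := by
  let φ : (T.edge F).tot →ₗ[A[H]] F.tot :=
    ((T.bdL A K).comp (T.edge F).tot.subtype).codRestrict F.tot (fun g => by
      intro x
      exact bd_mem F (g.1 : T.E →₀ K) g.2 x)
  let ψ : F.tot →ₗ[A[H]] K := (sumL A H V K).comp F.tot.subtype
  refine ⟨φ, ψ, ?_, ?_, ?_⟩
  · rw [← LinearMap.ker_eq_bot, eq_bot_iff]
    intro g hg
    have h1 : bdE T.or K (g.1 : T.E →₀ K) = 0 := congrArg Subtype.val hg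
    exact Subtype.ext (tree_inj T.or T.tree _ h1)
  · intro k
    obtain ⟨f, h1, h2⟩ := hs k
    exact ⟨⟨f, h1⟩, h2⟩
  · apply le_antisymm
    · rintro _ ⟨g, rfl⟩
      exact sumV_bdE T.or (g.1 : T.E →₀ K)
    · intro f hf
      obtain ⟨g, h1, h2⟩ := he (f.1 : V →₀ K) f.2 hf
      exact ⟨⟨g, h1⟩, Subtype.ext h2⟩

variable (T)

/-- exactness for the lattices -/
theorem ltF_exact {Y : Set V} (hY : Cvx T.Γ Y) (ι : Type) (j : K →ₗ[A[H]] (ι → A[H]))
    (f : V →₀ K) (hf : ∀ x, f x ∈ (ltF Y ι j).U x) (h0 : sumV V K f = 0) :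
    ∃ g : T.E →₀ K, (∀ e, g e ∈ (ltF Y ι j).U e.1.1 ∧ g e ∈ (ltF Y ι j).U e.1.2) ∧
      bdE T.or K g = f := by
  refine tree_exact T.or T.tree (ltF Y ι j).U ?_ f hf h0
  rintro x y hxy k hk ⟨S, φ, hS, rfl⟩
  rw [mem_ltF] at hk ⊢
  intro a h hh
  have h1 := hk a h hh
  have h2 : ∃ z ∈ S, (j (φ z) a).coeff h ≠ 0 := by
    by_contra hcon
    push Not at hcon
    apply hh
    rw [map_sum, Finset.sum_apply]
    have h3 : ∀ S' ⊆ S, (∑ z ∈ S', j (φ z) a).coeff h = 0 := by
      classical
      intro S'
      induction S' using Finset.induction_on with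
      | empty =>
        intro _
        rw [Finset.sum_empty, coeff_zero, Finsupp.zero_apply]
      | insert z S' hz ih =>
        intro hS'
        rw [Finset.sum_insert hz, coeff_add, Finsupp.add_apply,
          ih ((Finset.subset_insert z S').trans hS'),
          hcon z (hS' (Finset.mem_insert_self z S')), add_zero]
    exact h3 S subset_rfl
  obtain ⟨z, hz, hzh⟩ := h2
  refine hY (h⁻¹ • x) h1 (h⁻¹ • z) ((hS z hz).1 a h hzh) (h⁻¹ • y) (T.adj _ _ _ hxy) ?_
  rw [T.dist_smul, T.dist_smul]
  exact (hS z hz).2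

/-- the sums of the lattices -/
theorem ltF_sum [Module.Finite A[H] K] (ι : Type) [Finite ι] (j : K →ₗ[A[H]] (ι → A[H])) :
    ∃ Y : Set V, Y.Finite ∧ Cvx T.Γ Y ∧ ∀ k : K, ∃ f : V →₀ K,
      (∀ x, f x ∈ (ltF Y ι j).U x) ∧ sumV V K f = k := by
  classical
  have := Fintype.ofFinite ι
  obtain ⟨x0⟩ := T.tree.connected.nonempty
  obtain ⟨s, hs⟩ := (Module.Finite.fg_top : (⊤ : Submodule A[H] K).FG)
  let S : Finset V := s.biUnion fun k => Finset.univ.biUnion fun a : ι =>
    (j k a).coeff.support.image fun h => h⁻¹ • x0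
  obtain ⟨Y, hY1, hY2, hY3⟩ := exists_cvx T.tree (S : Set V) S.finite_toSet
  refine ⟨Y, hY1, hY3, fun k => ?_⟩
  have h1 : ((sumL A H V K).comp (ltF Y ι j).tot.subtype).range = ⊤ := by
    rw [eq_top_iff, ← hs, Submodule.span_le]
    intro k hk
    have h2 : k ∈ (ltF Y ι j).U x0 := by
      rw [mem_ltF]
      intro a h hh
      refine hY2 (Finset.mem_biUnion.2 ⟨k, hk, Finset.mem_biUnion.2 ⟨a, Finset.mem_univ _, ?_⟩⟩)
      exact Finset.mem_image.2 ⟨h, Finsupp.mem_support_iff.2 hh, rfl⟩
    refine ⟨⟨Tw.mk A H x0 k, (ltF Y ι j).mk_mem h2⟩, ?_⟩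
    exact sumV_single x0 k
  have h2 : k ∈ ((sumL A H V K).comp (ltF Y ι j).tot.subtype).range := by
    rw [h1]; exact Submodule.mem_top
  obtain ⟨f, hf⟩ := h2
  exact ⟨f.1, f.2, hf⟩

/-- the edges with both ends in `Y` -/
def YE (Y : Set V) : Set T.E := {e | e.1.1 ∈ Y ∧ e.1.2 ∈ Y}

theorem YE_finite {Y : Set V} (hY : Y.Finite) : (T.YE Y).Finite := by
  refine Set.Finite.of_finite_image (f := fun e : T.E => e.1) ?_ ?_
  · refine (hY.prod hY).subset ?_
    rintro _ ⟨e, he, rfl⟩
    exact ⟨he.1, he.2⟩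
  · intro e _ e' _ h
    exact Subtype.ext h

/-- the edge family -/
theorem edge_lt {Y : Set V} (ι : Type) (j : K →ₗ[A[H]] (ι → A[H])) (e : T.E) (k : K)
    (hk : k ∈ (T.edge (ltF Y ι j)).U e) : j k ∈ lt (H := H) A (T.YE Y) ι e := by
  intro a h hh
  exact ⟨hk.1 a h hh, hk.2 a h hh⟩

/-- **finitely generated submodules of free modules are finitely presented** -/
theorem fp [Module.Finite A[H] K] (hV : Finite (MulAction.orbitRel.Quotient H V))
    (hE : Finite (MulAction.orbitRel.Quotient H T.E))
    (hn : ∀ e : T.E, IsNoetherianRing A[MulAction.stabilizer H e])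
    (hc : ∀ x : V, CohT A[MulAction.stabilizer H x])
    (ι : Type) [Finite ι] (j : K →ₗ[A[H]] (ι → A[H])) (hj : Function.Injective j) :
    Module.FinitePresentation A[H] K := by
  obtain ⟨Y, hY1, hY2, hY3⟩ := T.ltF_sum ι j
  obtain ⟨φ, ψ, h1, h2, h3⟩ := ses (T := T) hY3 (T.ltF_exact hY2 ι j)
  -- the edges
  obtain ⟨m, e, he1, he2⟩ := exists_orbit_reps H T.E hE
  obtain ⟨T1, -, ⟨r1⟩⟩ := exists_tot (T.edge (ltF Y ι j)) e he1 he2 (fun i => hn _)
    (fun i => loc_fg_noeth _ ι j hj (T.YE Y) (T.YE_finite hY1) (e i)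
      (fun k hk => T.edge_lt ι j (e i) k hk) (hn _))
  have h4 := fp_of_res r1
  have h5 : (LinearMap.ker ψ).FG := by
    rw [← h3, LinearMap.range_eq_map]
    exact Submodule.FG.map _ Module.Finite.fg_top
  have h6 : Module.Finite A[H] (ltF Y ι j).tot := by
    refine ⟨Submodule.fg_of_fg_map_of_fg_inf_ker ψ ?_ ?_⟩
    · rw [Submodule.map_top, LinearMap.range_eq_top.2 h2]
      exact Module.Finite.fg_top
    · rw [top_inf_eq]
      exact h5
  have h7 : (ltF Y ι j).tot.FG := Module.Finite.iff_fg.1 h6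
  have h8 : Module.FinitePresentation A[H] (ltF Y ι j).tot := by
    refine tot_fp _ hV hc fun x => ?_
    exact loc_fp _ ι j hj Y hY1 x (fun k hk => hk) (hc x) (loc_fg_of_tot _ h7 x)
  exact Module.finitePresentation_of_surjective ψ h2 h5

end TA

/-- coherence from kernels -/
theorem cohT_of_ker {R : Type u} [Ring R] (h : ∀ (J K : Type) [Fintype J] [Fintype K]
    (D : Matrix J K R), (LinearMap.ker (Matrix.vecMulLinear D)).FG) : CohT R := by
  classical
  intro J K _ _ D
  let N : Submodule R (J → R) := LinearMap.ker (Matrix.vecMulLinear D)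
  obtain ⟨S, hS⟩ : N.FG := h J K D
  let eq := S.equivFin
  refine ⟨S.card, fun i j => (eq.symm i : J → R) j, ?_, ?_⟩
  · funext i k
    have h1 : ((eq.symm i : J → R)) ∈ N := by
      rw [← hS]
      exact Submodule.subset_span (eq.symm i).2
    have h2 : Matrix.vecMul (eq.symm i : J → R) D = 0 := h1
    exact congrFun h2 k
  · intro x hx
    have h1 : x () ∈ N := row_eq_iff.1 hx
    rw [← hS] at h1
    have h2 : Submodule.span R (S : Set (J → R)) =
        Submodule.span R (Set.range fun i : Fin S.card => (eq.symm i : J → R)) := by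
      congr 1
      ext y
      constructor
      · intro hy
        exact ⟨eq ⟨y, hy⟩, by simp⟩
      · rintro ⟨i, rfl⟩
        exact (eq.symm i).2
    rw [h2] at h1
    obtain ⟨c, hc⟩ := (Submodule.mem_span_range_iff_exists_fun R).1 h1
    refine ⟨fun _ i => c i, ?_⟩
    symm
    apply row_eq_iff.2
    change Matrix.vecMul c _ = x ()
    rw [← hc]
    funext j
    simp only [Matrix.vecMul, dotProduct, Finset.sum_apply, Pi.smul_apply, smul_eq_mul]

/-- **Waldhausen**: the group ring of a group which acts on a tree with finitely many orbits of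
vertices and edges is coherent if those of the stabilisers of the edges are Noetherian and those
of the vertices coherent -/
theorem coh_of_tree {A : Type u} [CommRing A] {H : Type v} [Group H] {V : Type v}
    [MulAction H V] (T : TA H V) (hV : Finite (MulAction.orbitRel.Quotient H V))
    (hE : Finite (MulAction.orbitRel.Quotient H T.E))
    (hn : ∀ e : T.E, IsNoetherianRing A[MulAction.stabilizer H e])
    (hc : ∀ x : V, CohT A[MulAction.stabilizer H x]) : CohT A[H] := by
  refine cohT_of_ker fun J K _ _ D => ?_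
  let φ := Matrix.vecMulLinear D
  have h1 : Module.Finite A[H] (LinearMap.range φ) := Module.Finite.range φ
  have h2 : Module.FinitePresentation A[H] (LinearMap.range φ) :=
    T.fp hV hE hn hc K (LinearMap.range φ).subtype Subtype.val_injective
  have h3 := Module.FinitePresentation.fg_ker φ.rangeRestrict
    (LinearMap.surjective_rangeRestrict φ)
  rwa [LinearMap.ker_rangeRestrict] at h3

end Pool.Agent.T4S
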