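import Mathlib

/-!
# Exactness with coefficients of the complex of a cellulated plane
-/

set_option autoImplicit false

namespace Pool.Agent.T4S

universe u v w

section
variable {V E F : Type*} (o t : E → V) (l r : E → F)

/-- the boundary of the edges, with coefficients -/
noncomputable def bd1 (K : Type*) [AddCommGroup K] : (E →₀ K) →+ (V →₀ K) :=
  Finsupp.mapDomain.addMonoidHom t - Finsupp.mapDomain.addMonoidHom o

theorem bd1_single (K : Type*) [AddCommGroup K] (e : E) (k : K) :
    bd1 o t K (Finsupp.single e k) = Finsupp.single (t e) k - Finsupp.single (o e) k := by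
  change Finsupp.mapDomain t (Finsupp.single e k) - Finsupp.mapDomain o (Finsupp.single e k) = _
  rw [Finsupp.mapDomain_single, Finsupp.mapDomain_single]

/-- `g = c ∘ l - c ∘ r` -/
def IsBd2 {K : Type*} [AddCommGroup K] (c : F →₀ K) (g : E →₀ K) : Prop :=
  ∀ e, g e = c (l e) - c (r e)

/-- the coefficient map `n ↦ n • k` -/
noncomputable def cof {X : Type*} {K : Type*} [AddCommGroup K] (k : K) : (X →₀ ℤ) →+ (X →₀ K) :=
  Finsupp.mapRange.addMonoidHom ((zmultiplesHom K) k)

theorem cof_apply {X : Type*} {K : Type*} [AddCommGroup K] (k : K) (f : X →₀ ℤ) (x : X) :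
    cof k f x = f x • k := rfl

theorem cof_single {X : Type*} {K : Type*} [AddCommGroup K] (k : K) (x : X) (n : ℤ) :
    cof k (Finsupp.single x n) = Finsupp.single x (n • k) := by
  refine (Finsupp.mapRange_single (hf := map_zero _)).trans ?_
  rfl

theorem cof_add {X : Type*} {K : Type*} [AddCommGroup K] (k k' : K) (f : X →₀ ℤ) :
    cof (k + k') f = cof k f + cof k' f := by
  ext x
  rw [Finsupp.add_apply, cof_apply, cof_apply, cof_apply, smul_add]

theorem cof_zero {X : Type*} {K : Type*} [AddCommGroup K] (f : X →₀ ℤ) :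
    cof (0 : K) f = 0 := by
  ext x
  rw [cof_apply, smul_zero, Finsupp.zero_apply]

theorem bd1_cof {K : Type*} [AddCommGroup K] (k : K) (g : E →₀ ℤ) :
    bd1 o t K (cof k g) = cof k (bd1 o t ℤ g) := by
  induction g using Finsupp.induction_linear with
  | zero => rw [map_zero, map_zero, map_zero, map_zero]
  | add f g hf hg => rw [map_add, map_add, hf, hg, map_add, map_add]
  | single e n =>
    rw [cof_single, bd1_single, bd1_single, map_sub, cof_single, cof_single]

theorem isBd2_cof {K : Type*} [AddCommGroup K] (k : K) {c : F →₀ ℤ} {g : E →₀ ℤ}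
    (h : IsBd2 l r c g) : IsBd2 l r (cof k c) (cof k g) := by
  intro e
  rw [cof_apply, cof_apply, cof_apply, h e, sub_smul]

variable {l r} in
theorem IsBd2.add {K : Type*} [AddCommGroup K] {c c' : F →₀ K} {g g' : E →₀ K}
    (h : IsBd2 l r c g) (h' : IsBd2 l r c' g') : IsBd2 l r (c + c') (g + g') := by
  intro e
  rw [Finsupp.add_apply, Finsupp.add_apply, Finsupp.add_apply, h e, h' e]
  abel

variable {l r} in
theorem IsBd2.eq {K : Type*} [AddCommGroup K] {c : F →₀ K} {g g' : E →₀ K}
    (h : IsBd2 l r c g) (h' : IsBd2 l r c g') : g = g' := by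
  ext e
  rw [h e, h' e]

theorem isBd2_zero {K : Type*} [AddCommGroup K] : IsBd2 l r (0 : F →₀ K) (0 : E →₀ K) := by
  intro e
  simp

/-- the extension to coefficients in `K` of a homomorphism given on a basis -/
noncomputable def ext0 {X Y : Type*} (s : X → (Y →₀ ℤ)) (K : Type*) [AddCommGroup K] :
    (X →₀ K) →+ (Y →₀ K) :=
  Finsupp.liftAddHom fun x =>
    { toFun := fun k => cof k (s x)
      map_zero' := cof_zero _
      map_add' := fun k k' => cof_add k k' _ }

theorem ext0_single {X Y : Type*} (s : X → (Y →₀ ℤ)) (K : Type*) [AddCommGroup K] (x : X) (k : K) :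
    ext0 s K (Finsupp.single x k) = cof k (s x) := by
  change Finsupp.liftAddHom _ (Finsupp.single x k) = _
  rw [Finsupp.liftAddHom_apply_single]
  rfl

/-- (P0) with coefficients -/
theorem coef0 (hV : Nonempty V) (h0 : ∀ f : V →₀ ℤ, (f.sum fun _ n => n) = 0 →
      ∃ g : E →₀ ℤ, bd1 o t ℤ g = f) {K : Type*} [AddCommGroup K] (f : V →₀ K)
    (hf : (f.sum fun _ k => k) = 0) : ∃ g : E →₀ K, bd1 o t K g = f := by
  classical
  obtain ⟨v0⟩ := hV
  have h1 : ∀ v, ∃ g : E →₀ ℤ, bd1 o t ℤ g = Finsupp.single v 1 - Finsupp.single v0 1 := by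
    intro v
    refine h0 _ ?_
    rw [Finsupp.sum_sub_index (fun _ _ _ => rfl), Finsupp.sum_single_index rfl,
      Finsupp.sum_single_index rfl, sub_self]
  choose s hs using h1
  refine ⟨ext0 s K f, ?_⟩
  have key : ∀ f : V →₀ K, bd1 o t K (ext0 s K f) = f - Finsupp.single v0 (f.sum fun _ k => k) := by
    intro f
    induction f using Finsupp.induction_linear with
    | zero =>
      rw [map_zero, map_zero, Finsupp.sum_zero_index, Finsupp.single_zero, sub_zero]
    | add f g hf hg =>
      rw [map_add, map_add, hf, hg, Finsupp.sum_add_index (fun _ _ => rfl) (fun _ _ _ _ => rfl),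
        Finsupp.single_add]
      abel
    | single v k =>
      rw [ext0_single, bd1_cof, hs, map_sub, cof_single, cof_single, one_smul,
        Finsupp.sum_single_index rfl]
  rw [key, hf, Finsupp.single_zero, sub_zero]

/-- (P1) with coefficients, first half -/
theorem coef1 (h0 : ∀ f : V →₀ ℤ, (f.sum fun _ n => n) = 0 → ∃ g : E →₀ ℤ, bd1 o t ℤ g = f)
    (h1 : ∀ g : E →₀ ℤ, bd1 o t ℤ g = 0 → ∃ c : F →₀ ℤ, IsBd2 l r c g)
    {K : Type*} [AddCommGroup K] (g : E →₀ K) (hg : bd1 o t K g = 0) :
    ∃ c : F →₀ K, IsBd2 l r c g := by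
  classical
  by_cases hV : Nonempty V
  swap
  · refine ⟨0, fun e => absurd ⟨o e⟩ hV⟩
  obtain ⟨v0⟩ := hV
  have h2 : ∀ v, ∃ g : E →₀ ℤ, bd1 o t ℤ g = Finsupp.single v 1 - Finsupp.single v0 1 := by
    intro v
    refine h0 _ ?_
    rw [Finsupp.sum_sub_index (fun _ _ _ => rfl), Finsupp.sum_single_index rfl,
      Finsupp.sum_single_index rfl, sub_self]
  choose s hs using h2
  have h3 : ∀ e, ∃ c : F →₀ ℤ, IsBd2 l r c (Finsupp.single e 1 - s (t e) + s (o e)) := by
    intro e
    refine h1 _ ?_
    rw [map_add, map_sub, bd1_single, hs, hs]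
    abel
  choose c hc using h3
  refine ⟨ext0 c K g, ?_⟩
  have key : ∀ g : E →₀ K, IsBd2 l r (ext0 c K g) (g - ext0 s K (bd1 o t K g)) := by
    intro g
    induction g using Finsupp.induction_linear with
    | zero =>
      rw [map_zero, map_zero, map_zero, sub_zero]
      exact isBd2_zero l r
    | add f g hf hg =>
      have h4 := hf.add hg
      rw [map_add, map_add, map_add]
      have h5 : f + g - (ext0 s K (bd1 o t K f) + ext0 s K (bd1 o t K g)) =
          f - ext0 s K (bd1 o t K f) + (g - ext0 s K (bd1 o t K g)) := by abel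
      rw [h5]
      exact h4
    | single e k =>
      have h4 := isBd2_cof l r k (hc e)
      rw [ext0_single, bd1_single, map_sub, ext0_single, ext0_single]
      have h5 : Finsupp.single e k - (cof k (s (t e)) - cof k (s (o e))) =
          cof k (Finsupp.single e 1 - s (t e) + s (o e)) := by
        rw [map_add, map_sub, cof_single, one_smul]
        abel
      rw [h5]
      exact h4
  have h4 := key g
  rw [hg, map_zero, sub_zero] at h4
  exact h4

/-- the fibres are finite: the boundary of a single face -/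
theorem exists_bd2 (hl : ∀ f, {e | l e = f}.Finite) (hr : ∀ f, {e | r e = f}.Finite)
    {K : Type*} [AddCommGroup K] (c : F →₀ K) : ∃ g : E →₀ K, IsBd2 l r c g := by
  classical
  have hfin : {e | c (l e) - c (r e) ≠ 0}.Finite := by
    refine Set.Finite.subset (Set.Finite.union (c.support.finite_toSet.biUnion fun f _ => hl f)
      (c.support.finite_toSet.biUnion fun f _ => hr f)) ?_
    intro e he
    by_cases h1 : c (l e) = 0
    · have h2 : c (r e) ≠ 0 := fun h2 => he (by rw [h1, h2, sub_zero])
      exact Or.inr (Set.mem_biUnion (Finset.mem_coe.2 (Finsupp.mem_support_iff.2 h2)) rfl)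
    · exact Or.inl (Set.mem_biUnion (Finset.mem_coe.2 (Finsupp.mem_support_iff.2 h1)) rfl)
  exact ⟨Finsupp.onFinset hfin.toFinset (fun e => c (l e) - c (r e)) fun e he =>
    hfin.mem_toFinset.2 he, fun e => rfl⟩

/-- (P1) with coefficients, second half -/
theorem coef1' (hl : ∀ f, {e | l e = f}.Finite) (hr : ∀ f, {e | r e = f}.Finite)
    (h1 : ∀ (c : F →₀ ℤ) (g : E →₀ ℤ), IsBd2 l r c g → bd1 o t ℤ g = 0)
    {K : Type*} [AddCommGroup K] (c : F →₀ K) (g : E →₀ K) (hg : IsBd2 l r c g) :
    bd1 o t K g = 0 := by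
  classical
  have key : ∀ c : F →₀ K, ∃ g : E →₀ K, IsBd2 l r c g ∧ bd1 o t K g = 0 := by
    intro c
    induction c using Finsupp.induction_linear with
    | zero => exact ⟨0, isBd2_zero l r, map_zero _⟩
    | add c c' hc hc' =>
      obtain ⟨g, h2, h3⟩ := hc
      obtain ⟨g', h2', h3'⟩ := hc'
      exact ⟨g + g', h2.add h2', by rw [map_add, h3, h3', add_zero]⟩
    | single f k =>
      obtain ⟨g, h2⟩ := exists_bd2 l r hl hr (Finsupp.single f (1 : ℤ))
      refine ⟨cof k g, ?_, ?_⟩
      · have h3 := isBd2_cof l r k h2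
        rwa [cof_single, one_smul] at h3
      · rw [bd1_cof, h1 _ _ h2, map_zero]
  obtain ⟨g', h2, h3⟩ := key c
  rw [hg.eq h2, h3]

/-- (P3): the boundary of the faces is injective if there are infinitely many faces, connected by
edges -/
theorem coef2 [Infinite F]
    (h2 : ∀ f f' : F, Relation.ReflTransGen
      (fun a b => ∃ e, (l e = a ∧ r e = b) ∨ (l e = b ∧ r e = a)) f f')
    {K : Type*} [AddCommGroup K] (c : F →₀ K) (hc : IsBd2 l r c (0 : E →₀ K)) : c = 0 := by
  classical
  have h3 : ∀ f f' : F, c f = c f' := by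
    intro f f'
    induction h2 f f' with
    | refl => rfl
    | tail _ h ih =>
      obtain ⟨e, he⟩ := h
      have h4 : c (l e) = c (r e) := by
        have h5 := hc e
        rw [Finsupp.zero_apply] at h5
        exact (sub_eq_zero.1 h5.symm)
      rcases he with ⟨h5, h6⟩ | ⟨h5, h6⟩
      · rw [ih, ← h5, h4, h6]
      · rw [ih, ← h6, ← h4, h5]
  obtain ⟨f0, hf0⟩ := Infinite.exists_notMem_finset c.support
  ext f
  rw [h3 f f0, Finsupp.notMem_support_iff.1 hf0, Finsupp.zero_apply]

end

end Pool.Agent.T4S
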