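import Mathlib
import Pool.Agent.Lib.UP.U14

/-!
# The modules `E^q(W) = Ext^q(W, R)` (left modules by the involution): functoriality, the long
exact sequence and its naturality
-/

set_option autoImplicit false
set_option linter.unusedSectionVars false

open CategoryTheory CategoryTheory.Abelian Pool.Agent.UP

namespace Pool.Agent.T4S

universe u

section
variable {R : Type u} [Ring R] [StarRing R]
  {W : Type u} [AddCommGroup W] [Module R W] {W' : Type u} [AddCommGroup W'] [Module R W']
  {W'' : Type u} [AddCommGroup W''] [Module R W'']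

/-- functoriality -/
noncomputable def esMap (q : ℕ) (f : W →ₗ[R] W') : ES R q W' →ₗ[R] ES R q W where
  toFun x := Pool.UP.EP.map q f x
  map_add' x y := (Pool.UP.EP.map q f).map_add x y
  map_smul' r x := (Pool.UP.EP.map q f).map_smul (starRingEquiv (R := R) r) x

theorem esMap_comp (q : ℕ) (f : W →ₗ[R] W') (g : W' →ₗ[R] W'') (x : ES R q W'') :
    esMap q (g.comp f) x = esMap q f (esMap q g x) := Pool.UP.EP.map_comp f g x

theorem esMap_id (q : ℕ) (x : ES R q W) : esMap q LinearMap.id x = x := Pool.UP.EP.map_id x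

theorem esMap_add (q : ℕ) (f g : W →ₗ[R] W') (x : ES R q W') :
    esMap q (f + g) x = esMap q f x + esMap q g x := Pool.UP.EP.map_add f g x

theorem esMap_zero (q : ℕ) (x : ES R q W') : esMap q (0 : W →ₗ[R] W') x = 0 :=
  Pool.UP.EP.map_zero x

theorem esMap_neg (q : ℕ) (f : W →ₗ[R] W') (x : ES R q W') : esMap q (-f) x = -esMap q f x := by
  have h := esMap_add q (-f) f x
  rw [neg_add_cancel, esMap_zero] at h
  exact eq_neg_of_add_eq_zero_left h.symm

theorem esMap_sub (q : ℕ) (f g : W →ₗ[R] W') (x : ES R q W') :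
    esMap q (f - g) x = esMap q f x - esMap q g x := by
  rw [sub_eq_add_neg, esMap_add, esMap_neg, ← sub_eq_add_neg]

theorem esMap_sum (q : ℕ) {ι : Type*} (s : Finset ι) (f : ι → (W →ₗ[R] W')) (x : ES R q W') :
    esMap q (∑ i ∈ s, f i) x = ∑ i ∈ s, esMap q (f i) x := by
  classical
  induction s using Finset.induction_on with
  | empty => rw [Finset.sum_empty, Finset.sum_empty, esMap_zero]
  | insert a s ha ih => rw [Finset.sum_insert ha, Finset.sum_insert ha, esMap_add, ih]

/-- an isomorphism -/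
noncomputable def esCongr (q : ℕ) (e : W ≃ₗ[R] W') : ES R q W' ≃ₗ[R] ES R q W where
  __ := esMap q (e : W →ₗ[R] W')
  invFun := esMap q (e.symm : W' →ₗ[R] W)
  left_inv x := by
    change esMap q (e.symm : W' →ₗ[R] W) (esMap q (e : W →ₗ[R] W') x) = x
    rw [← esMap_comp]
    have : (e : W →ₗ[R] W').comp (e.symm : W' →ₗ[R] W) = LinearMap.id := by
      ext; simp
    rw [this, esMap_id]
  right_inv x := by
    change esMap q (e : W →ₗ[R] W') (esMap q (e.symm : W' →ₗ[R] W) x) = x
    rw [← esMap_comp]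
    have : (e.symm : W' →ₗ[R] W).comp (e : W →ₗ[R] W') = LinearMap.id := by
      ext; simp
    rw [this, esMap_id]

theorem esCongr_apply (q : ℕ) (e : W ≃ₗ[R] W') (x : ES R q W') :
    esCongr q e x = esMap q (e : W →ₗ[R] W') x := rfl

/-- the condition `GE` in terms of `ES` -/
theorem ge_iff_es (p : ℕ) (M : Type u) [AddCommGroup M] [Module R M] :
    GE R p M ↔ ∀ l < p, ∀ x : ES R l M, x = 0 := by
  constructor
  · intro h l hl x
    have := h l hl
    exact Subsingleton.elim (α := Ext.{u} (ModuleCat.of R M) (ModuleCat.of R R) l) x 0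
  · intro h l hl
    refine ⟨fun a b => ?_⟩
    exact (h l hl a).trans (h l hl b).symm

end

/-! ### The long exact sequence -/

section les

variable {R : Type u} [Ring R] [StarRing R]
  {N K Q : Type u} [AddCommGroup N] [Module R N] [AddCommGroup K]
  [Module R K] [AddCommGroup Q] [Module R Q]

/-- a short exact sequence of modules -/
structure Ses (f : N →ₗ[R] K) (g : K →ₗ[R] Q) : Prop where
  inj : Function.Injective f
  surj : Function.Surjective g
  ex : Function.Exact f g

/-- the short exact sequence of a submodule -/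
theorem ses_sub (U : Submodule R K) : Ses U.subtype U.mkQ :=
  ⟨U.subtype_injective, U.mkQ_surjective, by
    intro x
    rw [Submodule.mkQ_apply, Submodule.Quotient.mk_eq_zero]
    exact ⟨fun h => ⟨⟨x, h⟩, rfl⟩, by rintro ⟨y, rfl⟩; exact y.2⟩⟩

/-- the short exact sequence of a surjective map -/
theorem ses_ker (g : K →ₗ[R] Q) (hg : Function.Surjective g) :
    Ses (LinearMap.ker g).subtype g :=
  ⟨(LinearMap.ker g).subtype_injective, hg, by
    intro x
    exact ⟨fun h => ⟨⟨x, h⟩, rfl⟩, by rintro ⟨y, rfl⟩; exact y.2⟩⟩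

variable {f : N →ₗ[R] K} {g : K →ₗ[R] Q}

/-- the connecting homomorphism -/
noncomputable def esDelta (l : ℕ) (h : Ses f g) : ES R l N →ₗ[R] ES R (l + 1) Q where
  toFun x := Pool.UP.EP.delta l f g h.inj h.surj h.ex x
  map_add' x y := (Pool.UP.EP.delta l f g h.inj h.surj h.ex).map_add x y
  map_smul' r x := (Pool.UP.EP.delta l f g h.inj h.surj h.ex).map_smul (starRingEquiv (R := R) r) x

theorem es_exact_mid (h : Ses f g) (l : ℕ) : Function.Exact (esMap l g) (esMap l f) :=
  fun x => Pool.UP.EP.exact_mid f g h.inj h.surj h.ex l x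

theorem es_exact_left (h : Ses f g) (l : ℕ) : Function.Exact (esMap l f) (esDelta l h) :=
  fun x => Pool.UP.EP.exact_left f g h.inj h.surj h.ex l x

theorem es_exact_right (h : Ses f g) (l : ℕ) : Function.Exact (esDelta l h) (esMap (l + 1) g) :=
  fun x => Pool.UP.EP.exact_right f g h.inj h.surj h.ex l x

theorem es_map_zero_injective (h : Ses f g) : Function.Injective (esMap (R := R) 0 g) :=
  Pool.UP.EP.map_zero_injective g h.surj

/-- `E^l(N) → E^(l+1)(Q) → E^(l+1)(K)`: if `E^l(N) = 0` then `E^(l+1)(Q) → E^(l+1)(K)` is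
injective -/
theorem es_inj_succ (h : Ses f g) {l : ℕ} (hN : ∀ x : ES R l N, x = 0) :
    Function.Injective (esMap (R := R) (l + 1) g) := by
  rw [← LinearMap.ker_eq_bot, eq_bot_iff]
  intro x hx
  obtain ⟨y, rfl⟩ := (es_exact_right h l x).1 hx
  rw [hN y, map_zero]
  exact Submodule.zero_mem _

/-- if `E^q(Q) = 0` then `E^q(K) → E^q(N)` is injective -/
theorem es_inj_of_quot (h : Ses f g) {l : ℕ} (hQ : ∀ x : ES R l Q, x = 0) :
    Function.Injective (esMap (R := R) l f) := by
  rw [← LinearMap.ker_eq_bot, eq_bot_iff]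
  intro x hx
  obtain ⟨y, rfl⟩ := (es_exact_mid h l x).1 hx
  rw [hQ y, map_zero]
  exact Submodule.zero_mem _

/-- the cokernel of `E^q(K) → E^q(N)` embeds in `E^(q+1)(Q)` -/
theorem es_coker_inj (h : Ses f g) (l : ℕ) :
    ∃ φ : (ES R l N ⧸ LinearMap.range (esMap (R := R) l f)) →ₗ[R] ES R (l + 1) Q,
      Function.Injective φ := by
  have h1 : LinearMap.range (esMap (R := R) l f) = LinearMap.ker (esDelta l h) := by
    ext x
    exact (es_exact_left h l x).symm
  refine ⟨(LinearMap.range (esMap (R := R) l f)).liftQ (esDelta l h) h1.le, ?_⟩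
  rw [← LinearMap.ker_eq_bot, Submodule.ker_liftQ, h1, Submodule.mkQ_map_self]

section nat

variable {N' K' Q' : Type u} [AddCommGroup N'] [Module R N'] [AddCommGroup K']
  [Module R K'] [AddCommGroup Q'] [Module R Q'] {f' : N' →ₗ[R] K'} {g' : K' →ₗ[R] Q'}

/-- **naturality of the connecting homomorphism** -/
theorem esDelta_nat (h : Ses f g) (h' : Ses f' g') (a : N →ₗ[R] N') (b : K →ₗ[R] K')
    (c : Q →ₗ[R] Q') (h1 : b.comp f = f'.comp a) (h2 : c.comp g = g'.comp b) (l : ℕ)
    (x : ES R l N') : esMap (l + 1) c (esDelta l h' x) = esDelta l h (esMap l a x) := by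
  have s1 := Pool.UP.sesOf' f g h.inj h.surj h.ex
  have s2 := Pool.UP.sesOf' f' g' h'.inj h'.surj h'.ex
  let F : ShortComplex.mk (ModuleCat.ofHom f) (ModuleCat.ofHom g) (Pool.UP.sesZ f g h.ex) ⟶
      ShortComplex.mk (ModuleCat.ofHom f') (ModuleCat.ofHom g') (Pool.UP.sesZ f' g' h'.ex) :=
    { τ₁ := ModuleCat.ofHom a
      τ₂ := ModuleCat.ofHom b
      τ₃ := ModuleCat.ofHom c
      comm₁₂ := by
        change ModuleCat.ofHom a ≫ ModuleCat.ofHom f' = ModuleCat.ofHom f ≫ ModuleCat.ofHom b
        rw [← ModuleCat.ofHom_comp, ← ModuleCat.ofHom_comp, h1]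
      comm₂₃ := by
        change ModuleCat.ofHom b ≫ ModuleCat.ofHom g' = ModuleCat.ofHom g ≫ ModuleCat.ofHom c
        rw [← ModuleCat.ofHom_comp, ← ModuleCat.ofHom_comp, h2] }
  have key := ShortComplex.ShortExact.extClass_naturality s1 s2 F
  have e1 : (Ext.mk₀ (ModuleCat.ofHom c)).comp (s2.extClass.comp
      (show Ext.{u} (ModuleCat.of R N') (ModuleCat.of R R) l from x) (add_comm 1 l))
        (zero_add (l + 1)) =
      s1.extClass.comp ((Ext.mk₀ (ModuleCat.ofHom a)).comp
      (show Ext.{u} (ModuleCat.of R N') (ModuleCat.of R R) l from x) (zero_add l))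
        (add_comm 1 l) := by
    rw [← Ext.comp_assoc (a₁₂ := 1) _ _ _ (by lia) (by lia) (by lia)]
    rw [← Ext.comp_assoc (a₁₂ := 1) _ _ _ (by lia) (by lia) (by lia)]
    exact congrArg (fun z => Ext.comp z (show Ext.{u} (ModuleCat.of R N') (ModuleCat.of R R) l
      from x) (add_comm 1 l)) key.symm
  exact e1

end nat

end les

end Pool.Agent.T4S
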