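import Mathlib
import Pool.Agent.Lib.UPS.Es

/-!
# T4, surface groups, Step 4: the map `Phi` (helper49)
-/

set_option autoImplicit false
set_option linter.unusedSectionVars false

open CategoryTheory

namespace Pool.Agent.UP

universe u

/-! ### `Loc` over the ring `A` for modules over an `A`-ring `S` -/

section locC

variable {A S : Type u} [Ring A] [Ring S]

/-- `Loc A p K` for the `S`-module `K`, by restriction of the scalars along `i` -/
def LocC (i : A →+* S) (p : ℕ) (K : Type u) [AddCommGroup K] [Module S K] : Prop :=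
  @Loc A _ p K _ (Module.compHom K i)

variable {i : A →+* S} {p : ℕ} {K K' K'' : Type u} [AddCommGroup K] [Module S K]
  [AddCommGroup K'] [Module S K'] [AddCommGroup K''] [Module S K'']

theorem LocC.of_injective (f : K →ₗ[S] K') (hf : Function.Injective f) (h : LocC i p K') :
    LocC i p K := by
  let _ : Module A K := Module.compHom K i
  let _ : Module A K' := Module.compHom K' i
  exact Loc.of_injective
    ({ toFun := f, map_add' := f.map_add, map_smul' := fun a x => f.map_smul (i a) x } :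
      K →ₗ[A] K') hf h

theorem LocC.of_surjective [IsNoetherianRing A] (f : K →ₗ[S] K') (hf : Function.Surjective f)
    (h : LocC i p K) : LocC i p K' := by
  let _ : Module A K := Module.compHom K i
  let _ : Module A K' := Module.compHom K' i
  exact Loc.of_surjective
    ({ toFun := f, map_add' := f.map_add, map_smul' := fun a x => f.map_smul (i a) x } :
      K →ₗ[A] K') hf h

theorem LocC.of_exact [IsNoetherianRing A] (f : K →ₗ[S] K') (g : K' →ₗ[S] K'')
    (h : ∀ x, g x = 0 → ∃ y, f y = x) (h1 : LocC i p K) (h2 : LocC i p K'') : LocC i p K' := by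
  let _ : Module A K := Module.compHom K i
  let _ : Module A K' := Module.compHom K' i
  let _ : Module A K'' := Module.compHom K'' i
  exact Loc.of_exact
    ({ toFun := f, map_add' := f.map_add, map_smul' := fun a x => f.map_smul (i a) x } :
      K →ₗ[A] K')
    ({ toFun := g, map_add' := g.map_add, map_smul' := fun a x => g.map_smul (i a) x } :
      K' →ₗ[A] K'')
    (fun x hx => h x hx) h1 h2

theorem LocC.mono {q : ℕ} (h : p ≤ q) (hK : LocC i q K) : LocC i p K := by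
  let _ : Module A K := Module.compHom K i
  exact Loc.mono h hK

end locC

/-! ### the map -/

section phi

variable {S : Type u} [Ring S] [StarRing S] {W C0 C1' C0'' C1'' C2'' : Type u}
  [AddCommGroup W] [Module S W] [AddCommGroup C0] [Module S C0] [AddCommGroup C1'] [Module S C1']
  [AddCommGroup C0''] [Module S C0''] [AddCommGroup C1''] [Module S C1'']
  [AddCommGroup C2''] [Module S C2'']

/-- the diagram of Step 4 -/
structure PhiD (S : Type u) [Ring S] (W C0 C1' C0'' C1'' C2'' : Type u)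
    [AddCommGroup W] [Module S W] [AddCommGroup C0] [Module S C0] [AddCommGroup C1'] [Module S C1']
    [AddCommGroup C0''] [Module S C0''] [AddCommGroup C1''] [Module S C1'']
    [AddCommGroup C2''] [Module S C2''] where
  ε0 : C0 →ₗ[S] W
  ε : C0'' →ₗ[S] W
  i0 : C0 →ₗ[S] C0''
  d1' : C1' →ₗ[S] C0''
  d1 : C1'' →ₗ[S] C0''
  i1 : C1' →ₗ[S] C1''
  d2 : C2'' →ₗ[S] C1''
  hε0 : Function.Surjective ε0
  hε : Function.Surjective ε
  hd2 : Function.Injective d2
  εi : ∀ x, ε (i0 x) = ε0 x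
  di : ∀ x, d1 (i1 x) = d1' x
  εd : ∀ x, ε (d1 x) = 0
  dd : ∀ x, d1 (d2 x) = 0
  Z : ∀ x, ε0 x = 0 → ∃ y, d1' y = i0 x
  N : ∀ x, d1' x = 0 → ∃ y, d2 y = i1 x

namespace PhiD

variable (D : PhiD S W C0 C1' C0'' C1'' C2'')

/-- `d1'` onto its range -/
noncomputable abbrev e1' : C1' →ₗ[S] LinearMap.range D.d1' := D.d1'.rangeRestrict

/-- `d1` onto its range -/
noncomputable abbrev e1 : C1'' →ₗ[S] LinearMap.range D.d1 := D.d1.rangeRestrict

theorem e1'_surj : Function.Surjective D.e1' := D.d1'.surjective_rangeRestrict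
theorem e1_surj : Function.Surjective D.e1 := D.d1.surjective_rangeRestrict

theorem mem_ker' (x : C1') : x ∈ LinearMap.ker D.e1' ↔ D.d1' x = 0 := by
  rw [LinearMap.mem_ker]
  exact ⟨fun h => congrArg Subtype.val h, fun h => Subtype.ext h⟩

theorem mem_ker (x : C1'') : x ∈ LinearMap.ker D.e1 ↔ D.d1 x = 0 := by
  rw [LinearMap.mem_ker]
  exact ⟨fun h => congrArg Subtype.val h, fun h => Subtype.ext h⟩

/-- `N' → C2''` -/
noncomputable def κ : LinearMap.ker D.e1' →ₗ[S] C2'' :=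
  (LinearEquiv.ofInjective D.d2 D.hd2).symm.toLinearMap ∘ₗ
    LinearMap.codRestrict (LinearMap.range D.d2) (D.i1 ∘ₗ (LinearMap.ker D.e1').subtype)
      (fun x => by
        obtain ⟨y, hy⟩ := D.N x.1 ((D.mem_ker' x.1).mp x.2)
        exact ⟨y, hy⟩)

theorem d2_κ (x : LinearMap.ker D.e1') : D.d2 (D.κ x) = D.i1 x := by
  have h := (LinearEquiv.ofInjective D.d2 D.hd2).apply_symm_apply
    (LinearMap.codRestrict (LinearMap.range D.d2) (D.i1 ∘ₗ (LinearMap.ker D.e1').subtype)
      (fun x => by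
        obtain ⟨y, hy⟩ := D.N x.1 ((D.mem_ker' x.1).mp x.2)
        exact ⟨y, hy⟩) x)
  exact congrArg Subtype.val h

/-- `Z → B'` -/
noncomputable def r : LinearMap.ker D.ε0 →ₗ[S] LinearMap.range D.d1' :=
  LinearMap.codRestrict (LinearMap.range D.d1') (D.i0 ∘ₗ (LinearMap.ker D.ε0).subtype)
    (fun x => by
      obtain ⟨y, hy⟩ := D.Z x.1 x.2
      exact ⟨y, hy⟩)

/-- `B' → B''` -/
noncomputable def j : LinearMap.range D.d1' →ₗ[S] LinearMap.range D.d1 :=
  LinearMap.codRestrict (LinearMap.range D.d1) (LinearMap.range D.d1').subtype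
    (fun x => by
      obtain ⟨y, hy⟩ := x.2
      exact ⟨D.i1 y, by rw [D.di, hy]; rfl⟩)

/-- `B'' → Z''` -/
noncomputable def b : LinearMap.range D.d1 →ₗ[S] LinearMap.ker D.ε :=
  LinearMap.codRestrict (LinearMap.ker D.ε) (LinearMap.range D.d1).subtype
    (fun x => by
      obtain ⟨y, hy⟩ := x.2
      rw [LinearMap.mem_ker]
      change D.ε x.1 = 0
      rw [← hy, D.εd])

/-- `Z → Z''` -/
noncomputable def a : LinearMap.ker D.ε0 →ₗ[S] LinearMap.ker D.ε :=
  LinearMap.codRestrict (LinearMap.ker D.ε) (D.i0 ∘ₗ (LinearMap.ker D.ε0).subtype)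
    (fun x => by
      rw [LinearMap.mem_ker]
      change D.ε (D.i0 x.1) = 0
      rw [D.εi]
      exact x.2)

/-- `N' → N''` -/
noncomputable def a' : LinearMap.ker D.e1' →ₗ[S] LinearMap.ker D.e1 :=
  LinearMap.codRestrict (LinearMap.ker D.e1) (D.i1 ∘ₗ (LinearMap.ker D.e1').subtype)
    (fun x => by
      rw [D.mem_ker]
      change D.d1 (D.i1 x.1) = 0
      rw [D.di]
      exact (D.mem_ker' x.1).mp x.2)

/-- `C2'' → N''` -/
noncomputable def c2 : C2'' →ₗ[S] LinearMap.ker D.e1 :=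
  LinearMap.codRestrict (LinearMap.ker D.e1) D.d2
    (fun x => by
      rw [D.mem_ker]
      exact D.dd x)

/-- `C1'' → Z''` -/
noncomputable def c1 : C1'' →ₗ[S] LinearMap.ker D.ε :=
  LinearMap.codRestrict (LinearMap.ker D.ε) D.d1
    (fun x => by
      rw [LinearMap.mem_ker]
      exact D.εd x)

/-- the map `Phi` -/
noncomputable def Phi (q : ℕ) : ES S q C2'' →ₗ[S] ES S (q + 2) W :=
  ES.dl (q + 1) D.ε0 D.hε0 ∘ₗ ES.map (q + 1) D.r ∘ₗ ES.dl q D.e1' D.e1'_surj ∘ₗ ES.map q D.κ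

theorem Phi_apply (q : ℕ) (x : ES S q C2'') : D.Phi q x =
    ES.dl (q + 1) D.ε0 D.hε0 (ES.map (q + 1) D.r (ES.dl q D.e1' D.e1'_surj (ES.map q D.κ x))) :=
  rfl

/-- (4a) -/
theorem Phi_d2 (q : ℕ) (x : ES S q C1'') : D.Phi q (ES.map q D.d2 x) = 0 := by
  have h1 : D.d2 ∘ₗ D.κ = D.i1 ∘ₗ (LinearMap.ker D.e1').subtype :=
    LinearMap.ext fun y => D.d2_κ y
  have h2 : ES.map q D.κ (ES.map q D.d2 x) =
      ES.map q (LinearMap.ker D.e1').subtype (ES.map q D.i1 x) := by
    rw [← ES.map_comp, ← ES.map_comp, h1]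
  rw [D.Phi_apply, h2, (ES.dl_exact_left q D.e1' D.e1'_surj _).mpr ⟨_, rfl⟩, map_zero, map_zero]

/-- the image of the classes of `Z''` which vanish on `C1''` is in the range of `Phi` -/
theorem dl_mem (q : ℕ) (y : ES S (q + 1) (LinearMap.ker D.ε))
    (hy : ES.map (q + 1) D.c1 y = 0) :
    ES.dl (q + 1) D.ε D.hε y ∈ LinearMap.range (D.Phi q) := by
  have h1 : D.c1 = D.b ∘ₗ D.e1 := LinearMap.ext fun _ => rfl
  rw [h1, ES.map_comp] at hy
  obtain ⟨ν, hν⟩ := (ES.dl_exact_right q D.e1 D.e1_surj _).mp hy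
  refine ⟨ES.map q D.c2 ν, ?_⟩
  have e1 : ES.dl (q + 1) D.ε D.hε y = ES.dl (q + 1) D.ε0 D.hε0 (ES.map (q + 1) D.a y) := by
    have h := ES.dl_nat D.ε0 D.hε0 D.ε D.hε D.i0 LinearMap.id
      (LinearMap.ext fun x => (D.εi x).symm) D.a (fun _ => rfl) (q + 1) y
    rw [ES.map_id] at h
    exact h
  have e2 : D.a = D.b ∘ₗ D.j ∘ₗ D.r := LinearMap.ext fun _ => rfl
  have e3 : ES.map (q + 1) D.j (ES.dl q D.e1 D.e1_surj ν) =
      ES.dl q D.e1' D.e1'_surj (ES.map q D.a' ν) :=
    ES.dl_nat D.e1' D.e1'_surj D.e1 D.e1_surj D.i1 D.j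
      (LinearMap.ext fun x => Subtype.ext (D.di x).symm) D.a' (fun _ => rfl) q ν
  have e4 : D.c2 ∘ₗ D.κ = D.a' := LinearMap.ext fun x => Subtype.ext (D.d2_κ x)
  rw [D.Phi_apply, ← ES.map_comp, e4, e1, e2, ES.map_comp, ES.map_comp, ← hν, e3]

/-- (4b) for any class `G` which is closed under submodules, quotients and extensions -/
theorem class_coker (G : ∀ (M : Type u) [AddCommGroup M] [Module S M], Prop)
    (gi : ∀ (M M' : Type u) [AddCommGroup M] [Module S M] [AddCommGroup M'] [Module S M']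
      (f : M →ₗ[S] M'), Function.Injective f → G M' → G M)
    (gs : ∀ (M M' : Type u) [AddCommGroup M] [Module S M] [AddCommGroup M'] [Module S M']
      (f : M →ₗ[S] M'), Function.Surjective f → G M → G M')
    (ge : ∀ (M M' M'' : Type u) [AddCommGroup M] [Module S M] [AddCommGroup M'] [Module S M']
      [AddCommGroup M''] [Module S M''] (f : M →ₗ[S] M') (g : M' →ₗ[S] M''),
      Function.Exact f g → G M → G M'' → G M') (q : ℕ)
    (h1 : G (ES S (q + 1) C1'')) (h0 : G (ES S (q + 2) C0'')) :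
    G (ES S (q + 2) W ⧸ LinearMap.range (D.Phi q)) := by
  -- the classes of `Z''`
  let φ : ES S (q + 1) (LinearMap.ker D.ε) →ₗ[S] ES S (q + 2) W ⧸ LinearMap.range (D.Phi q) :=
    (LinearMap.range (D.Phi q)).mkQ ∘ₗ ES.dl (q + 1) D.ε D.hε
  -- `E^(q+1)(Z'') / ker → range φ`
  have hker : LinearMap.ker (ES.map (q + 1) D.c1) ≤ LinearMap.ker φ := by
    intro y hy
    rw [LinearMap.mem_ker]
    exact (Submodule.Quotient.mk_eq_zero _).mpr (D.dl_mem q y hy)
  have hT : G (ES S (q + 1) (LinearMap.ker D.ε) ⧸ LinearMap.ker (ES.map (q + 1) D.c1)) :=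
    gi _ _ ((LinearMap.ker (ES.map (q + 1) D.c1)).liftQ (ES.map (q + 1) D.c1) le_rfl)
      (by
        rw [← LinearMap.ker_eq_bot, Submodule.ker_liftQ_eq_bot]
        exact le_rfl) h1
  let ψ := (LinearMap.ker (ES.map (q + 1) D.c1)).liftQ φ hker
  have hM : G (ES S (q + 2) W ⧸ LinearMap.ker (ES.map (q + 2) D.ε)) :=
    gi _ _ ((LinearMap.ker (ES.map (q + 2) D.ε)).liftQ (ES.map (q + 2) D.ε) le_rfl)
      (by
        rw [← LinearMap.ker_eq_bot, Submodule.ker_liftQ_eq_bot]
        exact le_rfl) h0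
  -- the quotient of `M / range Φ` by the range of `ψ`
  have hQ : G ((ES S (q + 2) W ⧸ LinearMap.range (D.Phi q)) ⧸ LinearMap.range ψ) := by
    refine gs _ _ ((LinearMap.ker (ES.map (q + 2) D.ε)).liftQ
      ((LinearMap.range ψ).mkQ ∘ₗ (LinearMap.range (D.Phi q)).mkQ) ?_) ?_ hM
    · intro x hx
      obtain ⟨y, rfl⟩ := (ES.dl_exact_right (q + 1) D.ε D.hε x).mp hx
      rw [LinearMap.mem_ker]
      exact (Submodule.Quotient.mk_eq_zero _).mpr ⟨Submodule.Quotient.mk y, rfl⟩
    · intro x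
      obtain ⟨y, rfl⟩ := Submodule.Quotient.mk_surjective _ x
      obtain ⟨z, rfl⟩ := Submodule.Quotient.mk_surjective _ y
      exact ⟨Submodule.Quotient.mk z, rfl⟩
  exact ge _ _ _ ψ (LinearMap.range ψ).mkQ
    (LinearMap.exact_map_mkQ_range ψ) hT hQ

/-- (4b) -/
theorem loc_coker {A : Type u} [Ring A] [IsNoetherianRing A] (i : A →+* S) (q : ℕ) {p : ℕ}
    (h1 : LocC i p (ES S (q + 1) C1'')) (h0 : LocC i p (ES S (q + 2) C0'')) :
    LocC i p (ES S (q + 2) W ⧸ LinearMap.range (D.Phi q)) :=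
  D.class_coker (fun M _ _ => LocC i p M)
    (fun _ _ _ _ _ _ f hf h => LocC.of_injective f hf h)
    (fun _ _ _ _ _ _ f hf h => LocC.of_surjective f hf h)
    (fun _ _ _ _ _ _ _ _ _ f g hfg h h' => LocC.of_exact f g (fun x hx => (hfg x).mp hx) h h')
    q h1 h0

end PhiD

end phi

end Pool.Agent.UP
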